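import Mathlib

set_option autoImplicit false

namespace Pool.Agent.R879.A5

open Equiv

/-- the alternating group of degree five -/
abbrev Alt5 := alternatingGroup (Fin 5)

lemma card_A5 : Nat.card Alt5 = 60 := by
  rw [Nat.card_eq_fintype_card, card_alternatingGroup]
  simp [Nat.factorial]

/-- A proper subgroup of a finite simple group of order `60` has index at least five. -/
lemma index_ge {G : Type} [Group G] [IsSimpleGroup G] (hG : Nat.card G = 60) (S : Subgroup G)
    (hS : S ≠ ⊤) : 5 ≤ S.index := by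
  have hfin : Finite G := Nat.finite_of_card_ne_zero (by omega)
  by_contra hlt
  push Not at hlt
  have hcore : S.normalCore = ⊥ := by
    rcases (Subgroup.normalCore_normal S).eq_bot_or_eq_top with h | h
    · exact h
    · exact absurd (top_le_iff.mp (h ▸ S.normalCore_le)) hS
  have hinj : Function.Injective (MulAction.toPermHom G (G ⧸ S)) := by
    rw [← MonoidHom.ker_eq_bot_iff, ← Subgroup.normalCore_eq_ker, hcore]
  have hcard := Nat.card_le_card_of_injective _ hinj
  rw [hG, Nat.card_perm] at hcard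
  have h1 : Nat.card (G ⧸ S) ≤ 4 := by
    rw [← Subgroup.index_eq_card]; omega
  have h2 := Nat.factorial_le h1
  have : Nat.factorial 4 = 24 := rfl
  omega

lemma dvd_sixty_cases {n : ℕ} (h : n ∣ 60) :
    n ∈ ({1, 2, 3, 4, 5, 6, 10, 12, 15, 20, 30, 60} : Finset ℕ) := by
  have : n ∈ Nat.divisors 60 := by simp [h]
  have h2 : Nat.divisors 60 = {1, 2, 3, 4, 5, 6, 10, 12, 15, 20, 30, 60} := by decide +kernel
  rwa [h2] at this

/-- the stabilizer of a point in `A₅` -/
def stab : Subgroup Alt5 where
  carrier := {g : Alt5 | (g : Perm (Fin 5)) 4 = 4}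
  mul_mem' := by
    intro a b ha hb
    simp only [Set.mem_ofPred_eq] at *
    simp [hb, ha]
  one_mem' := by simp
  inv_mem' := by
    intro a ha
    simp only [Set.mem_ofPred_eq] at *
    simp only [InvMemClass.coe_inv]
    rw [Equiv.Perm.inv_eq_iff_eq, ha]

lemma card_stab : Nat.card stab = 12 := by
  have : Nat.card stab = Fintype.card {g : Alt5 // (g : Perm (Fin 5)) 4 = 4} := by
    rw [← Nat.card_eq_fintype_card]; rfl
  rw [this]
  decide +kernel

/-- the centralizer of a transposition in `A₅` -/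
def cent : Subgroup Alt5 where
  carrier := {g : Alt5 | (g : Perm (Fin 5)) * swap 0 1 = swap 0 1 * (g : Perm (Fin 5))}
  mul_mem' := by
    intro a b ha hb
    simp only [Set.mem_ofPred_eq] at *
    simp only [Subgroup.coe_mul]
    rw [mul_assoc, hb, ← mul_assoc, ha, mul_assoc]
  one_mem' := by simp
  inv_mem' := by
    intro a ha
    simp only [Set.mem_ofPred_eq] at *
    simp only [InvMemClass.coe_inv]
    rw [inv_mul_eq_iff_eq_mul, ← mul_assoc, ha, mul_assoc, mul_inv_cancel, mul_one]

lemma card_cent : Nat.card cent = 6 := by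
  have : Nat.card cent = Fintype.card {g : Alt5 //
      (g : Perm (Fin 5)) * swap 0 1 = swap 0 1 * (g : Perm (Fin 5))} := by
    rw [← Nat.card_eq_fintype_card]; rfl
  rw [this]
  decide +kernel

/-- the 5-cycle -/
def cyc : Perm (Fin 5) := finRotate 5

lemma aux1 (c d : Perm (Fin 5)) (hc : c * d = d⁻¹ * c) : c * d⁻¹ = d * c := by
  rw [mul_inv_eq_iff_eq_mul, mul_assoc, hc, ← mul_assoc, mul_inv_cancel, one_mul]

lemma aux2 (c d : Perm (Fin 5)) (hc : c * d = d * c) : c * d⁻¹ = d⁻¹ * c := by
  rw [mul_inv_eq_iff_eq_mul, mul_assoc, hc, ← mul_assoc, inv_mul_cancel, one_mul]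

/-- the extended centralizer of a 5-cycle in `A₅` -/
def dih : Subgroup Alt5 where
  carrier := {g : Alt5 | (g : Perm (Fin 5)) * cyc = cyc * g ∨
    (g : Perm (Fin 5)) * cyc = cyc⁻¹ * g}
  mul_mem' := by
    intro a b ha hb
    simp only [Set.mem_ofPred_eq] at *
    simp only [Subgroup.coe_mul]
    rcases ha with ha | ha <;> rcases hb with hb | hb
    · left; rw [mul_assoc, hb, ← mul_assoc, ha, mul_assoc]
    · right; rw [mul_assoc, hb, ← mul_assoc, aux2 _ _ ha, mul_assoc]
    · right; rw [mul_assoc, hb, ← mul_assoc, ha, mul_assoc]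
    · left; rw [mul_assoc, hb, ← mul_assoc, aux1 _ _ ha, mul_assoc]
  one_mem' := by simp
  inv_mem' := by
    intro a ha
    simp only [Set.mem_ofPred_eq] at *
    simp only [InvMemClass.coe_inv]
    rcases ha with ha | ha
    · left
      rw [inv_mul_eq_iff_eq_mul, ← mul_assoc, ha, mul_assoc, mul_inv_cancel, mul_one]
    · right
      rw [inv_mul_eq_iff_eq_mul, ← mul_assoc, aux1 _ _ ha, mul_assoc, mul_inv_cancel, mul_one]

lemma card_dih : Nat.card dih = 10 := by
  have : Nat.card dih = Fintype.card {g : Alt5 //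
      (g : Perm (Fin 5)) * cyc = cyc * g ∨
    (g : Perm (Fin 5)) * cyc = cyc⁻¹ * g} := by
    rw [← Nat.card_eq_fintype_card]; rfl
  rw [this]
  decide +kernel

/-- Orders of subgroups of `A₅`. -/
lemma orders (n : ℕ) : (∃ S : Subgroup Alt5, Nat.card S = n) ↔
    n ∈ ({1, 2, 3, 4, 5, 6, 10, 12, 60} : Finset ℕ) := by
  have : IsSimpleGroup Alt5 := alternatingGroup.isSimpleGroup (by simp)
  constructor
  · rintro ⟨S, rfl⟩
    have hd : Nat.card S ∣ 60 := card_A5 ▸ Subgroup.card_subgroup_dvd_card S
    have hc := dvd_sixty_cases hd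
    by_cases hS : S = ⊤
    · subst hS
      rw [Subgroup.card_top, card_A5]; decide
    · have h5 := index_ge card_A5 S hS
      have hm := S.card_mul_index
      rw [card_A5] at hm
      have h12 : Nat.card S ≤ 12 := by nlinarith
      generalize Nat.card S = m at *
      simp only [Finset.mem_insert, Finset.mem_singleton] at *
      omega
  · intro h
    simp only [Finset.mem_insert, Finset.mem_singleton] at h
    rcases h with h | h | h | h | h | h | h | h | h <;> subst h
    · exact ⟨⊥, by simp⟩
    · have : Fact (Nat.Prime 2) := ⟨by norm_num⟩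
      obtain ⟨K, hK⟩ := Sylow.exists_subgroup_card_pow_prime (G := Alt5) 2 (n := 1)
        (by rw [card_A5]; norm_num)
      exact ⟨K, by simpa using hK⟩
    · have : Fact (Nat.Prime 3) := ⟨by norm_num⟩
      obtain ⟨K, hK⟩ := Sylow.exists_subgroup_card_pow_prime (G := Alt5) 3 (n := 1)
        (by rw [card_A5]; norm_num)
      exact ⟨K, by simpa using hK⟩
    · have : Fact (Nat.Prime 2) := ⟨by norm_num⟩
      obtain ⟨K, hK⟩ := Sylow.exists_subgroup_card_pow_prime (G := Alt5) 2 (n := 2)
        (by rw [card_A5]; norm_num)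
      exact ⟨K, by simpa using hK⟩
    · have : Fact (Nat.Prime 5) := ⟨by norm_num⟩
      obtain ⟨K, hK⟩ := Sylow.exists_subgroup_card_pow_prime (G := Alt5) 5 (n := 1)
        (by rw [card_A5]; norm_num)
      exact ⟨K, by simpa using hK⟩
    · exact ⟨cent, card_cent⟩
    · exact ⟨dih, card_dih⟩
    · exact ⟨stab, card_stab⟩
    · exact ⟨⊤, by rw [Subgroup.card_top, card_A5]⟩

lemma normal_iff (S : Subgroup Alt5) : S.Normal ↔ Nat.card S = 1 ∨ Nat.card S = 60 := by
  have : IsSimpleGroup Alt5 := alternatingGroup.isSimpleGroup (by simp)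
  constructor
  · intro h
    rcases h.eq_bot_or_eq_top with h | h
    · left; rw [h]; simp
    · right; rw [h, Subgroup.card_top, card_A5]
  · rintro (h | h)
    · rw [Subgroup.eq_bot_of_card_eq S h]; infer_instance
    · rw [Subgroup.eq_top_of_card_eq S (h.trans card_A5.symm)]; infer_instance

end Pool.Agent.R879.A5
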