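import Mathlib

set_option autoImplicit false

namespace Pool.Agent.R879.AffCyc

variable {P : ℕ} [Fact P.Prime] {Q : Type} [CommGroup Q]

/-- The group `(ZMod P)² ⋊ Q`, where `Q` acts by scalars through `ψ`. -/
@[ext] structure AG (ψ : Q →* (ZMod P)ˣ) where
  n : ZMod P × ZMod P
  q : Q

namespace AG

variable {ψ : Q →* (ZMod P)ˣ}

/-- the scalar by which `q` acts -/
def sc (ψ : Q →* (ZMod P)ˣ) (q : Q) : ZMod P := ((ψ q : (ZMod P)ˣ) : ZMod P)

@[simp] lemma sc_one : sc ψ 1 = 1 := by simp [sc]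
@[simp] lemma sc_mul (a b : Q) : sc ψ (a * b) = sc ψ a * sc ψ b := by simp [sc]
lemma sc_inv_mul (a : Q) : sc ψ a⁻¹ * sc ψ a = 1 := by rw [← sc_mul, inv_mul_cancel, sc_one]

instance : Mul (AG ψ) := ⟨fun x y => ⟨x.n + sc ψ x.q • y.n, x.q * y.q⟩⟩
instance : One (AG ψ) := ⟨⟨0, 1⟩⟩
instance : Inv (AG ψ) := ⟨fun x => ⟨-(sc ψ x.q⁻¹ • x.n), x.q⁻¹⟩⟩

@[simp] lemma mul_n (x y : AG ψ) : (x * y).n = x.n + sc ψ x.q • y.n := rfl
@[simp] lemma mul_q (x y : AG ψ) : (x * y).q = x.q * y.q := rfl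
@[simp] lemma one_n : (1 : AG ψ).n = 0 := rfl
@[simp] lemma one_q : (1 : AG ψ).q = 1 := rfl
@[simp] lemma inv_n (x : AG ψ) : (x⁻¹).n = -(sc ψ x.q⁻¹ • x.n) := rfl
@[simp] lemma inv_q (x : AG ψ) : (x⁻¹).q = x.q⁻¹ := rfl

instance : Group (AG ψ) :=
  Group.ofLeftAxioms
    (by intro x y z; ext <;> simp [mul_assoc, add_assoc])
    (by intro x; ext <;> simp)
    (by intro x; ext <;> simp)

/-- the underlying set -/
def equivProd (ψ : Q →* (ZMod P)ˣ) : AG ψ ≃ (ZMod P × ZMod P) × Q where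
  toFun x := (x.n, x.q)
  invFun x := ⟨x.1, x.2⟩
  left_inv _ := rfl
  right_inv _ := rfl

instance [Finite Q] : Finite (AG ψ) := Finite.of_equiv _ (equivProd ψ).symm

lemma card_AG : Nat.card (AG ψ) = P ^ 2 * Nat.card Q := by
  rw [Nat.card_congr (equivProd ψ)]
  simp [Nat.card_prod, pow_two]

/-- the projection onto `Q` -/
def proj (ψ : Q →* (ZMod P)ˣ) : AG ψ →* Q where
  toFun x := x.q
  map_one' := rfl
  map_mul' _ _ := rfl

@[simp] lemma proj_apply (x : AG ψ) : proj ψ x = x.q := rfl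

lemma card_ker_proj : Nat.card (proj ψ).ker = P ^ 2 := by
  have e : (proj ψ).ker ≃ ZMod P × ZMod P :=
    { toFun := fun x => x.1.n
      invFun := fun n => ⟨⟨n, 1⟩, by simp [MonoidHom.mem_ker]⟩
      left_inv := by
        rintro ⟨x, hx⟩
        have : x.q = 1 := hx
        ext <;> simp [this]
      right_inv := fun n => rfl }
  rw [Nat.card_congr e]
  simp [Nat.card_prod, pow_two]

lemma card_sub [Finite Q] (S : Subgroup (AG ψ)) :
    Nat.card S = Nat.card (S ⊓ (proj ψ).ker : Subgroup (AG ψ)) * Nat.card (S.map (proj ψ)) := by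
  have h1 := Subgroup.card_mul_index (((proj ψ).comp S.subtype).ker)
  rw [Subgroup.index_ker] at h1
  have h2 : ((proj ψ).comp S.subtype).range = S.map (proj ψ) := by
    rw [MonoidHom.range_comp, Subgroup.range_subtype]
  have h3 : Nat.card ((proj ψ).comp S.subtype).ker
      = Nat.card (S ⊓ (proj ψ).ker : Subgroup (AG ψ)) := by
    have e : ((proj ψ).comp S.subtype).ker ≃ (S ⊓ (proj ψ).ker : Subgroup (AG ψ)) :=
      { toFun := fun x => ⟨x.1.1, x.1.2, x.2⟩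
        invFun := fun x => ⟨⟨x.1, x.2.1⟩, x.2.2⟩
        left_inv := fun _ => rfl
        right_inv := fun _ => rfl }
    exact Nat.card_congr e
  rw [h2, h3] at h1
  exact h1.symm

lemma pow_of_sc (x : AG ψ) (hx : sc ψ x.q = 1) (k : ℕ) :
    x ^ k = ⟨k • x.n, x.q ^ k⟩ := by
  induction k with
  | zero => ext <;> simp
  | succ k ih =>
    have h : sc ψ (x.q ^ k) = 1 := by
      have : sc ψ (x.q ^ k) = (sc ψ x.q) ^ k := by simp [sc]
      rw [this, hx, one_pow]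
    rw [pow_succ, ih]
    ext <;> simp [h, pow_succ, add_mul]

lemma conj_n (h s : AG ψ) : (h * s * h⁻¹).n = h.n + sc ψ h.q • s.n - sc ψ s.q • h.n := by
  have : sc ψ h.q * sc ψ s.q * sc ψ h.q⁻¹ = sc ψ s.q := by
    rw [mul_comm (sc ψ h.q), mul_assoc, mul_comm (sc ψ h.q), sc_inv_mul, mul_one]
  simp only [mul_n, mul_q, inv_n, sc_mul, smul_neg, smul_smul, this]
  abel

/-- `S` is normal if it contains the whole kernel. -/
lemma normal_of_ker_le (S : Subgroup (AG ψ)) (h : (proj ψ).ker ≤ S) : S.Normal := by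
  refine ⟨fun s hs g => ?_⟩
  have h1 : g * s * g⁻¹ * s⁻¹ ∈ (proj ψ).ker := by
    rw [MonoidHom.mem_ker]
    simp [mul_comm]
  have := S.mul_mem (h h1) hs
  simpa using this

/-- `S` is normal if it acts trivially on the kernel (coprime situation). -/
lemma normal_of_sc [Finite Q] (hc : Nat.Coprime P (Nat.card Q)) (S : Subgroup (AG ψ))
    (h : ∀ s ∈ S, sc ψ s.q = 1) : S.Normal := by
  refine ⟨fun s hs g => ?_⟩
  have hs1 := h s hs
  obtain ⟨k, hk1, hk2⟩ := Nat.chineseRemainder hc 1 0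
  obtain ⟨l, hl1, hl2⟩ := Nat.chineseRemainder hc 0 1
  have hN : (⟨s.n, 1⟩ : AG ψ) ∈ S := by
    have h2 : s ^ k = ⟨s.n, 1⟩ := by
      rw [pow_of_sc s hs1]
      have e1 : k • s.n = s.n := by
        have : ((k : ℕ) : ZMod P) = 1 := by
          have := (ZMod.natCast_eq_natCast_iff k 1 P).mpr hk1
          simpa using this
        ext <;> simp [this]
      have e2 : s.q ^ k = 1 := by
        obtain ⟨t, ht⟩ := (Nat.modEq_zero_iff_dvd.mp hk2)
        rw [ht, pow_mul, pow_card_eq_one', one_pow]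
      rw [e1, e2]
    rw [← h2]; exact S.pow_mem hs k
  have hQ : (⟨0, s.q⟩ : AG ψ) ∈ S := by
    have h2 : (⟨s.n, 1⟩ : AG ψ)⁻¹ * s = ⟨0, s.q⟩ := by
      ext <;> simp
    rw [← h2]; exact S.mul_mem (S.inv_mem hN) hs
  -- scalar multiple of the kernel part
  have hN2 : (⟨sc ψ g.q • s.n, 1⟩ : AG ψ) ∈ S := by
    have h3 : (⟨s.n, 1⟩ : AG ψ) ^ (sc ψ g.q).val = ⟨sc ψ g.q • s.n, 1⟩ := by
      rw [pow_of_sc _ (by simp)]
      ext <;> simp
    rw [← h3]; exact S.pow_mem hN _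
  have h4 : g * s * g⁻¹ = (⟨sc ψ g.q • s.n, 1⟩ : AG ψ) * ⟨0, s.q⟩ := by
    apply AG.ext
    · rw [conj_n, hs1]
      simp
    · simp [mul_comm]
  rw [h4]
  exact S.mul_mem hN2 hQ

/-- The subgroup `A ⋊ B`. -/
def sub (ψ : Q →* (ZMod P)ˣ) (A : Submodule (ZMod P) (ZMod P × ZMod P)) (B : Subgroup Q) :
    Subgroup (AG ψ) where
  carrier := {x : AG ψ | x.n ∈ A ∧ x.q ∈ B}
  mul_mem' := by
    rintro x y ⟨hx1, hx2⟩ ⟨hy1, hy2⟩
    exact ⟨A.add_mem hx1 (A.smul_mem _ hy1), B.mul_mem hx2 hy2⟩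
  one_mem' := ⟨A.zero_mem, B.one_mem⟩
  inv_mem' := by
    rintro x ⟨hx1, hx2⟩
    exact ⟨A.neg_mem (A.smul_mem _ hx1), B.inv_mem hx2⟩

lemma mem_sub (A : Submodule (ZMod P) (ZMod P × ZMod P)) (B : Subgroup Q) (x : AG ψ) :
    x ∈ sub ψ A B ↔ x.n ∈ A ∧ x.q ∈ B := Iff.rfl

lemma card_subAB (A : Submodule (ZMod P) (ZMod P × ZMod P)) (B : Subgroup Q) :
    Nat.card (sub ψ A B) = Nat.card A * Nat.card B := by
  have e : sub ψ A B ≃ A × B :=
    { toFun := fun x => (⟨x.1.n, x.2.1⟩, ⟨x.1.q, x.2.2⟩)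
      invFun := fun x => ⟨⟨x.1.1, x.2.1⟩, x.1.2, x.2.2⟩
      left_inv := fun _ => rfl
      right_inv := fun _ => rfl }
  rw [Nat.card_congr e, Nat.card_prod]

end AG

/-- a submodule of each size -/
lemma exists_submodule (i : ℕ) (hi : i ≤ 2) :
    ∃ A : Submodule (ZMod P) (ZMod P × ZMod P), Nat.card A = P ^ i ∧
      (i < 2 → ∀ t : ZMod P, ((0, t) : ZMod P × ZMod P) ∈ A → t = 0) := by
  interval_cases i
  · refine ⟨⊥, by simp, fun _ t ht => ?_⟩
    simpa using ht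
  · refine ⟨Submodule.prod ⊤ ⊥, ?_, fun _ t ht => ?_⟩
    · have e : (Submodule.prod ⊤ ⊥ : Submodule (ZMod P) (ZMod P × ZMod P)) ≃ ZMod P :=
        { toFun := fun x => x.1.1
          invFun := fun x => ⟨(x, 0), by simp⟩
          left_inv := by
            rintro ⟨⟨x, y⟩, hx⟩
            simp only [Submodule.mem_prod, Submodule.mem_top, Submodule.mem_bot, true_and] at hx
            simp [hx]
          right_inv := fun _ => rfl }
      rw [Nat.card_congr e]; simp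
    · simpa using ht
  · refine ⟨⊤, ?_, fun h => absurd h (by norm_num)⟩
    have e : (⊤ : Submodule (ZMod P) (ZMod P × ZMod P)) ≃ ZMod P × ZMod P :=
      { toFun := fun x => x.1
        invFun := fun x => ⟨x, Submodule.mem_top⟩
        left_inv := fun _ => rfl
        right_inv := fun _ => rfl }
    rw [Nat.card_congr e]
    simp [Nat.card_prod, pow_two]

open AG

section Orders

variable [Finite Q] {ψ : Q →* (ZMod P)ˣ} {g : Q} {a c : ℕ}

lemma coprime_aux (hP7 : P ≠ 7) (hcard : Nat.card Q = 7 ^ a) : Nat.Coprime P (Nat.card Q) := by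
  rw [hcard]
  apply Nat.Coprime.pow_right
  exact (Nat.coprime_primes Fact.out (by norm_num)).mpr hP7

lemma card_cases (hcard : Nat.card Q = 7 ^ a) (S : Subgroup (AG ψ)) :
    ∃ i ≤ 2, ∃ j ≤ a, Nat.card (S ⊓ (proj ψ).ker : Subgroup (AG ψ)) = P ^ i ∧
      Nat.card (S.map (proj ψ)) = 7 ^ j ∧ Nat.card S = P ^ i * 7 ^ j := by
  have h1 : Nat.card (S ⊓ (proj ψ).ker : Subgroup (AG ψ)) ∣ P ^ 2 := by
    rw [← card_ker_proj (ψ := ψ)]
    exact Subgroup.card_dvd_of_le inf_le_right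
  have h2 : Nat.card (S.map (proj ψ)) ∣ 7 ^ a := by
    rw [← hcard]
    exact Subgroup.card_subgroup_dvd_card _
  obtain ⟨i, hi, hi2⟩ := (Nat.dvd_prime_pow (Fact.out : P.Prime)).mp h1
  obtain ⟨j, hj, hj2⟩ := (Nat.dvd_prime_pow (by norm_num : Nat.Prime 7)).mp h2
  exact ⟨i, hi, j, hj, hi2, hj2, by rw [card_sub S, hi2, hj2]⟩

lemma exists_cyclic (hg : ∀ x : Q, x ∈ Subgroup.zpowers g) (hcard : Nat.card Q = 7 ^ a)
    (j : ℕ) (hj : j ≤ a) : Nat.card (Subgroup.zpowers (g ^ 7 ^ (a - j))) = 7 ^ j := by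
  have ho : orderOf g = 7 ^ a := by
    rw [← hcard]; exact orderOf_eq_card_of_forall_mem_zpowers hg
  rw [Nat.card_zpowers, orderOf_pow_of_dvd (by positivity), ho]
  · rw [Nat.pow_div (by omega) (by norm_num)]
    congr 1; omega
  · rw [ho]; exact pow_dvd_pow _ (by omega)

lemma orders (hg : ∀ x : Q, x ∈ Subgroup.zpowers g) (hcard : Nat.card Q = 7 ^ a) (n : ℕ) :
    (∃ S : Subgroup (AG ψ), Nat.card S = n) ↔ ∃ i ≤ 2, ∃ j ≤ a, n = P ^ i * 7 ^ j := by
  constructor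
  · rintro ⟨S, rfl⟩
    obtain ⟨i, hi, j, hj, -, -, h⟩ := card_cases hcard S
    exact ⟨i, hi, j, hj, h⟩
  · rintro ⟨i, hi, j, hj, rfl⟩
    obtain ⟨A, hA, -⟩ := exists_submodule (P := P) i hi
    exact ⟨sub ψ A (Subgroup.zpowers (g ^ 7 ^ (a - j))), by
      rw [card_subAB, hA, exists_cyclic hg hcard j hj]⟩

lemma nonnormal_orders (hP7 : P ≠ 7) (hg : ∀ x : Q, x ∈ Subgroup.zpowers g)
    (hcard : Nat.card Q = 7 ^ a) (hr : orderOf (ψ g) = 7 ^ c) (hca : c ≤ a) (n : ℕ) :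
    (∃ S : Subgroup (AG ψ), Nat.card S = n ∧ ¬ S.Normal) ↔
      ∃ i < 2, ∃ j, a - c < j ∧ j ≤ a ∧ n = P ^ i * 7 ^ j := by
  constructor
  · rintro ⟨S, rfl, hS⟩
    obtain ⟨i, hi, j, hj, h1, h2, h3⟩ := card_cases hcard S
    refine ⟨i, ?_, j, ?_, hj, h3⟩
    · by_contra hi2
      have hi3 : i = 2 := by omega
      subst hi3
      apply hS
      apply normal_of_ker_le
      have h4 : (S ⊓ (proj ψ).ker : Subgroup (AG ψ)) = (proj ψ).ker := by
        apply Subgroup.eq_of_le_of_card_ge inf_le_right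
        rw [h1, card_ker_proj]
      rw [← h4]; exact inf_le_left
    · by_contra hj2
      apply hS
      apply normal_of_sc (coprime_aux hP7 hcard)
      intro s hs
      have h5 : s.q ∈ S.map (proj ψ) := ⟨s, hs, rfl⟩
      have h6 : s.q ^ 7 ^ j = 1 := by
        have := pow_card_eq_one' (x := (⟨s.q, h5⟩ : S.map (proj ψ)))
        rw [h2] at this
        exact congrArg Subtype.val this
      obtain ⟨t, ht⟩ := Subgroup.mem_zpowers_iff.mp (hg s.q)
      have ho : orderOf g = 7 ^ a := by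
        rw [← hcard]; exact orderOf_eq_card_of_forall_mem_zpowers hg
      have h7 : ((7 ^ a : ℕ) : ℤ) ∣ t * (7 ^ j : ℕ) := by
        rw [← ho, orderOf_dvd_iff_zpow_eq_one, zpow_mul, ht, zpow_natCast, h6]
      have h8 : ((7 ^ c : ℕ) : ℤ) ∣ t := by
        have h9 : (7 : ℤ) ^ c * 7 ^ j ∣ t * 7 ^ j := by
          rw [← pow_add]
          refine dvd_trans (pow_dvd_pow _ (by omega : c + j ≤ a)) ?_
          exact_mod_cast h7
        have := Int.dvd_of_mul_dvd_mul_right (by positivity) h9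
        exact_mod_cast this
      have h10 : ψ s.q = 1 := by
        rw [← ht, map_zpow, ← orderOf_dvd_iff_zpow_eq_one, hr]
        exact h8
      simp [sc, h10]
  · rintro ⟨i, hi, j, hj, hja, rfl⟩
    obtain ⟨A, hA, hA2⟩ := exists_submodule (P := P) i hi.le
    refine ⟨sub ψ A (Subgroup.zpowers (g ^ 7 ^ (a - j))), by
      rw [card_subAB, hA, exists_cyclic hg hcard j hja], fun hN => ?_⟩
    have hmem : (⟨0, g ^ 7 ^ (a - j)⟩ : AG ψ) ∈ sub ψ A (Subgroup.zpowers (g ^ 7 ^ (a - j))) :=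
      ⟨A.zero_mem, Subgroup.mem_zpowers _⟩
    have h1 := hN.conj_mem _ hmem (⟨(0, 1), 1⟩ : AG ψ)
    have h2 := h1.1
    rw [conj_n] at h2
    have h3 : ((0 : ZMod P), 1 - sc ψ (g ^ 7 ^ (a - j))) ∈ A := by
      convert h2 using 1
      ext <;> simp
    have h4 := hA2 hi _ h3
    have h5 : ψ (g ^ 7 ^ (a - j)) = 1 := by
      apply Units.ext
      have : sc ψ (g ^ 7 ^ (a - j)) = 1 := (sub_eq_zero.mp h4).symm
      simpa [sc] using this
    rw [map_pow] at h5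
    have h6 := orderOf_dvd_of_pow_eq_one h5
    rw [hr] at h6
    have := (Nat.pow_dvd_pow_iff_le_right (by norm_num : 1 < 7)).mp h6
    omega

end Orders

/-- The group needed: for every `c ≤ a` there is such an action. -/
lemma exists_action (a c : ℕ) (hca : c ≤ a) (hd : 7 ^ c ∣ P - 1) :
    ∃ ψ : Multiplicative (ZMod (7 ^ a)) →* (ZMod P)ˣ,
      (∀ x, x ∈ Subgroup.zpowers (Multiplicative.ofAdd (1 : ZMod (7 ^ a)))) ∧
      orderOf (ψ (Multiplicative.ofAdd 1)) = 7 ^ c := by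
  have hg : ∀ x, x ∈ Subgroup.zpowers (Multiplicative.ofAdd (1 : ZMod (7 ^ a))) := by
    intro x
    rw [Subgroup.mem_zpowers_iff]
    refine ⟨((Multiplicative.toAdd x).val : ℤ), ?_⟩
    rw [← ofAdd_zsmul]
    have : NeZero (7 ^ a) := ⟨by positivity⟩
    simp
  obtain ⟨u, hu⟩ := IsCyclic.exists_ofOrder_eq_natCard (α := (ZMod P)ˣ)
  have hu2 : orderOf u = P - 1 := by
    rw [hu, Nat.card_eq_fintype_card, ZMod.card_units]
  have hP1 : P - 1 ≠ 0 := by
    have := (Fact.out : P.Prime).two_le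
    omega
  obtain ⟨d, hdd⟩ := hd
  have hd0 : d ≠ 0 := by rintro rfl; simp at hdd; omega
  have hr : orderOf (u ^ d) = 7 ^ c := by
    rw [orderOf_pow_of_dvd hd0 (by rw [hu2, hdd]; exact dvd_mul_left _ _), hu2, hdd]
    exact Nat.mul_div_cancel _ (Nat.pos_of_ne_zero hd0)
  have hog : orderOf (Multiplicative.ofAdd (1 : ZMod (7 ^ a))) = 7 ^ a := by
    rw [orderOf_ofAdd_eq_addOrderOf, ZMod.addOrderOf_one]
  refine ⟨monoidHomOfForallMemZpowers hg (g' := u ^ d) (by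
    rw [hr, hog]; exact pow_dvd_pow _ hca), hg, ?_⟩
  rw [monoidHomOfForallMemZpowers_apply_gen, hr]

end Pool.Agent.R879.AffCyc
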