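import Mathlib

set_option autoImplicit false

namespace Pool.Agent.R879.Cappitt

open Subgroup
open scoped commutatorElement

variable {G : Type} [Group G] [TopologicalSpace G]

/-- every quotient by an open normal subgroup is a `p`-group of finite order -/
def ProP (p : ℕ) (G : Type) [Group G] [TopologicalSpace G] : Prop :=
  ∀ U : Subgroup G, U.Normal → IsOpen (U : Set G) → ∃ n : ℕ, U.index = p ^ n

/-- the hypothesis on the subgroup `S` -/
def Hyp (S : Subgroup G) : Prop :=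
  S ≠ ⊤ ∧ ∀ L : Subgroup G, IsClosed (L : Set G) → ¬ L ≤ S → L.Normal

section
variable [IsTopologicalGroup G] [CompactSpace G] [T2Space G] [TotallyDisconnectedSpace G]

lemma exists_open (g : G) (hg : g ≠ 1) : ∃ U : Subgroup G, U.Normal ∧ IsOpen (U : Set G) ∧ g ∉ U := by
  obtain ⟨W, hW⟩ := ProfiniteGrp.exist_openNormalSubgroup_sub_open_nhds_of_one
    (G := G) (U := {g}ᶜ) isOpen_compl_singleton (by simpa using hg.symm)
  exact ⟨W.toSubgroup, W.isNormal', W.isOpen', fun h => (hW h) rfl⟩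

omit [CompactSpace G] [T2Space G] [TotallyDisconnectedSpace G] in
/-- elements of the closure of a cyclic subgroup, modulo an open normal subgroup -/
lemma mem_closure_zpowers (x c : G) (hc : c ∈ (zpowers x).topologicalClosure) (W : Subgroup G)
    (hW : W.Normal) (hWo : IsOpen (W : Set G)) :
    ∃ m : ℤ, (c : G ⧸ W) = (x : G ⧸ W) ^ m := by
  have hc' : c ∈ _root_.closure ((zpowers x : Subgroup G) : Set G) := hc
  rw [mem_closure_iff] at hc'
  have ho : IsOpen {g : G | c⁻¹ * g ∈ W} := hWo.preimage (continuous_const_mul c⁻¹)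
  obtain ⟨y, hy1, hy2⟩ := hc' _ ho (by simp [W.one_mem])
  obtain ⟨m, hm⟩ := mem_zpowers_iff.mp hy2
  refine ⟨m, ?_⟩
  rw [← QuotientGroup.mk_zpow, hm]
  exact QuotientGroup.eq.mpr hy1

/-- An element of infinite order outside `S` is central. -/
lemma central_of_infinite {p : ℕ} (hp : p.Prime) (hG : ProP p G) {S : Subgroup G} (hS : Hyp S)
    (x : G) (hx : x ∉ S) (hinf : ¬ IsOfFinOrder x) (g : G) : g * x = x * g := by
  by_contra hgx
  -- choose `h ∉ S` not commuting with `x`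
  obtain ⟨h, hhS, hhx⟩ : ∃ h, h ∉ S ∧ h * x ≠ x * h := by
    by_cases hg : g ∈ S
    · refine ⟨x * g, fun h => hx ?_, fun h => hgx ?_⟩
      · have := S.mul_mem h (S.inv_mem hg)
        simpa using this
      · rw [mul_assoc] at h
        exact mul_left_cancel h
    · exact ⟨g, hg, hgx⟩
  set c : G := h * x * h⁻¹ * x⁻¹ with hc
  have hc1 : c ≠ 1 := by
    intro h1
    apply hhx
    rw [hc, mul_inv_eq_one, mul_inv_eq_iff_eq_mul] at h1
    exact h1
  have hXn : (zpowers x).topologicalClosure.Normal := by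
    apply hS.2 _ (isClosed_topologicalClosure _)
    intro hle
    exact hx (hle ((zpowers x).le_topologicalClosure (mem_zpowers x)))
  have hHn : (zpowers h).topologicalClosure.Normal := by
    apply hS.2 _ (isClosed_topologicalClosure _)
    intro hle
    exact hhS (hle ((zpowers h).le_topologicalClosure (mem_zpowers h)))
  have hxX : x ∈ (zpowers x).topologicalClosure := (zpowers x).le_topologicalClosure (mem_zpowers x)
  have hhH : h ∈ (zpowers h).topologicalClosure := (zpowers h).le_topologicalClosure (mem_zpowers h)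
  have hcX : c ∈ (zpowers x).topologicalClosure :=
    Subgroup.mul_mem _ (hXn.conj_mem x hxX h) (Subgroup.inv_mem _ hxX)
  have hcH : c ∈ (zpowers h).topologicalClosure := by
    have e : c = h * (x * h⁻¹ * x⁻¹) := by rw [hc]; group
    rw [e]
    exact Subgroup.mul_mem _ hhH (hHn.conj_mem _ (Subgroup.inv_mem _ hhH) x)
  -- the open subgroups
  obtain ⟨U, hUn, hUo, hcU⟩ := exists_open c hc1
  obtain ⟨f, hf⟩ := hG U hUn hUo
  have hxU : x ^ (p ^ f) ∈ U := by
    rw [← hf]; exact U.pow_index_mem x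
  have hx2 : x ^ (p ^ (2 * f)) ≠ 1 := by
    intro h1
    exact hinf (isOfFinOrder_iff_pow_eq_one.mpr ⟨p ^ (2 * f), pow_pos hp.pos _, h1⟩)
  obtain ⟨V, hVn, hVo, hxV⟩ := exists_open _ hx2
  set W : Subgroup G := U ⊓ V with hW
  have hWn : W.Normal := by infer_instance
  have hWo : IsOpen (W : Set G) := hUo.inter hVo
  obtain ⟨m, hm⟩ := mem_closure_zpowers x c hcX W hWn hWo
  obtain ⟨j, hj⟩ := mem_closure_zpowers h c hcH W hWn hWo
  obtain ⟨e, he⟩ := hG W hWn hWo
  -- computation in the quotient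
  have key : ((x : G ⧸ W)) ^ (m * m) = 1 := by
    set X : G ⧸ W := (x : G ⧸ W) with hXX
    set K : G ⧸ W := (h : G ⧸ W) with hK
    have h1 : K * X * K⁻¹ * X⁻¹ = X ^ m := by
      rw [← hm, hXX, hK, hc]
      simp only [QuotientGroup.mk_mul, QuotientGroup.mk_inv]
    have h2 : K * X * K⁻¹ = X ^ m * X := by
      rw [← h1]; group
    have h3 : K * X ^ m * K⁻¹ = X ^ (m * m) * X ^ m := by
      rw [← conj_zpow, h2, (Commute.refl X).zpow_left m |>.mul_zpow, ← zpow_mul]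
    have h4 : K * X ^ m * K⁻¹ = X ^ m := by
      have h5 : X ^ m = K ^ j := by rw [← hm, ← hj]
      rw [h5, ← zpow_one_add, ← zpow_neg_one, ← zpow_add]
      congr 1; ring
    rw [h4] at h3
    exact (mul_eq_right.mp h3.symm)
  -- conclude
  have hord : orderOf (x : G ⧸ W) ∣ p ^ e := by
    rw [← he, orderOf_dvd_iff_pow_eq_one, ← QuotientGroup.mk_pow]
    exact (QuotientGroup.eq_one_iff _).mpr (W.pow_index_mem x)
  obtain ⟨s, hs, hs2⟩ := (Nat.dvd_prime_pow hp).mp hord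
  have hsf : 2 * f ≤ s := by
    by_contra hlt
    push Not at hlt
    apply hxV
    have h6 : (x : G ⧸ W) ^ (p ^ (2 * f)) = 1 := by
      rw [← orderOf_dvd_iff_pow_eq_one, hs2]
      exact pow_dvd_pow p hlt.le
    rw [← QuotientGroup.mk_pow, QuotientGroup.eq_one_iff] at h6
    exact h6.2
  have h7 : ((p ^ f : ℕ) : ℤ) ∣ m := by
    have h8 : ((p ^ s : ℕ) : ℤ) ∣ m * m := by
      rw [← hs2, orderOf_dvd_iff_zpow_eq_one]; exact key
    have h9 : ((p : ℤ) ^ f) ^ 2 ∣ m ^ 2 := by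
      rw [← pow_mul, mul_comm f 2, pow_two]
      refine dvd_trans ?_ h8
      push_cast
      exact pow_dvd_pow _ hsf
    have := (Int.pow_dvd_pow_iff (by norm_num)).mp h9
    exact_mod_cast this
  obtain ⟨t, ht⟩ := h7
  apply hcU
  have h10 : (c : G ⧸ W) = ((x ^ (p ^ f)) ^ t : G) := by
    rw [hm, ht, QuotientGroup.mk_zpow, QuotientGroup.mk_pow, zpow_mul, zpow_natCast]
  have h11 := QuotientGroup.eq.mp h10
  have h12 : c⁻¹ * (x ^ (p ^ f)) ^ t ∈ U := h11.1
  have h13 : (x ^ (p ^ f)) ^ t ∈ U := U.zpow_mem hxU t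
  have h14 := U.mul_mem h12 (U.inv_mem h13)
  rw [mul_inv_cancel_right] at h14
  exact (U.inv_mem_iff).mp h14

/-- elements outside `S` have finite order -/
lemma finOrder_of_notMem {p : ℕ} (hp : p.Prime) (hG : ProP p G) {S : Subgroup G} (hS : Hyp S)
    (hna : ∃ a b : G, a * b ≠ b * a) (x : G) (hx : x ∉ S) : IsOfFinOrder x := by
  by_contra hinf
  have hxc : ∀ g, g * x = x * g := central_of_infinite hp hG hS x hx hinf
  have hy : ∀ y, y ∉ S → ∀ g, g * y = y * g := by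
    intro y hy g
    by_cases hyf : IsOfFinOrder y
    · obtain ⟨n, hn, hnS⟩ : ∃ n : ℕ, n ≠ 0 ∧ x ^ n * y ∉ S := by
        by_cases h1 : x ^ 1 * y ∈ S
        · refine ⟨2, by norm_num, fun h2 => hx ?_⟩
          have := S.mul_mem h2 (S.inv_mem h1)
          have e : x ^ 2 * y * (x ^ 1 * y)⁻¹ = x := by group
          rwa [e] at this
        · exact ⟨1, one_ne_zero, h1⟩
      have hcx : Commute (x ^ n) y := (show Commute x y from (hxc y).symm).pow_left n
      have hni : ¬ IsOfFinOrder (x ^ n * y) := by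
        intro hfo
        have h3 : IsOfFinOrder (x ^ n * y * y⁻¹) := by
          apply Commute.isOfFinOrder_mul _ hfo hyf.inv
          exact (hcx.mul_left (Commute.refl y)).inv_right
        rw [mul_inv_cancel_right] at h3
        rcases isOfFinOrder_pow.mp h3 with h4 | h4
        · exact hinf h4
        · exact hn h4
      have h5 := central_of_infinite hp hG hS _ hnS hni g
      have h6 : Commute g (x ^ n) := (show Commute g x from hxc g).pow_right n
      have h7 : Commute g (x ^ n * y) := h5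
      have h8 : Commute g ((x ^ n)⁻¹ * (x ^ n * y)) := h6.inv_right.mul_right h7
      rw [inv_mul_cancel_left] at h8
      exact h8
    · exact central_of_infinite hp hG hS y hy hyf g
  obtain ⟨a, b, hab⟩ := hna
  apply hab
  by_cases hb : b ∈ S
  · have hbx : b * x ∉ S := by
      intro h
      apply hx
      have := S.mul_mem (S.inv_mem hb) h
      simpa using this
    have h1 := hy _ hbx a
    -- `a (b x) = (b x) a`, `x` central
    rw [← mul_assoc, mul_assoc b x a, ← hxc a, ← mul_assoc] at h1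
    exact mul_right_cancel h1
  · exact hy b hb a

/-- a non-abelian pro-`p` group with the hypothesis is periodic -/
theorem periodic {p : ℕ} (hp : p.Prime) (hG : ProP p G) {S : Subgroup G} (hS : Hyp S)
    (hna : ∃ a b : G, a * b ≠ b * a) (z : G) : IsOfFinOrder z := by
  by_cases hz : z ∈ S
  · obtain ⟨y, hy⟩ : ∃ y, y ∉ S := by
      by_contra h
      push Not at h
      exact hS.1 (eq_top_iff.mpr fun g _ => h g)
    have hzy : z * y ∉ S := by
      intro h
      apply hy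
      have := S.mul_mem (S.inv_mem hz) h
      simpa using this
    have hfy := finOrder_of_notMem hp hG hS hna y hy
    have hfzy := finOrder_of_notMem hp hG hS hna _ hzy
    have hA : (zpowers y : Set G).Finite := by
      have := hfy.finite_zpowers
      exact this
    have hB : (zpowers (z * y) : Set G).Finite := hfzy.finite_zpowers
    have hAn : (zpowers y).Normal := hS.2 _ hA.isClosed (fun h => hy (h (mem_zpowers y)))
    have hfin : ((zpowers (z * y) ⊔ zpowers y : Subgroup G) : Set G).Finite := by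
      rw [mul_normal]
      exact hB.mul hA
    have hmem : z ∈ (zpowers (z * y) ⊔ zpowers y : Subgroup G) := by
      have h1 : z * y ∈ (zpowers (z * y) ⊔ zpowers y : Subgroup G) :=
        (le_sup_left : zpowers (z * y) ≤ _) (mem_zpowers _)
      have h2 : y ∈ (zpowers (z * y) ⊔ zpowers y : Subgroup G) :=
        (le_sup_right : zpowers y ≤ _) (mem_zpowers _)
      have := Subgroup.mul_mem _ h1 (Subgroup.inv_mem _ h2)
      simpa using this
    have hle : zpowers z ≤ (zpowers (z * y) ⊔ zpowers y : Subgroup G) := by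
      rw [zpowers_le]; exact hmem
    exact finite_zpowers.mp (hfin.subset hle)
  · exact finOrder_of_notMem hp hG hS hna z hz

/-- elements of finite order have order a power of `p` -/
lemma order_ppow {p : ℕ} (hG : ProP p G) (y : G) (hy : IsOfFinOrder y) :
    ∃ n : ℕ, y ^ (p ^ n) = 1 := by
  have hF : (zpowers y : Set G).Finite := hy.finite_zpowers
  have hF2 : ((zpowers y : Set G) \ {1}).Finite := hF.subset Set.sdiff_subset
  obtain ⟨W, hW⟩ := ProfiniteGrp.exist_openNormalSubgroup_sub_open_nhds_of_one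
    (G := G) (U := ((zpowers y : Set G) \ {1})ᶜ) hF2.isClosed.isOpen_compl (by simp)
  obtain ⟨n, hn⟩ := hG W.toSubgroup W.isNormal' W.isOpen'
  refine ⟨n, ?_⟩
  have h1 : y ^ (p ^ n) ∈ W.toSubgroup := by
    rw [← hn]
    have := W.isNormal'
    exact W.toSubgroup.pow_index_mem y
  have h2 := hW h1
  by_contra h3
  exact h2 ⟨Subgroup.pow_mem _ (mem_zpowers y) _, h3⟩

end

section Abstract

variable {G : Type} [Group G] {S : Subgroup G}

lemma comm_left (hN : ∀ y, y ∉ S → (zpowers y).Normal) {y : G} (hy : y ∉ S) (g : G) :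
    ⁅y, g⁆ ∈ zpowers y := by
  have e : ⁅y, g⁆ = y * (g * y⁻¹ * g⁻¹) := by simp only [commutatorElement_def]; group
  rw [e]
  exact Subgroup.mul_mem _ (mem_zpowers y)
    ((hN y hy).conj_mem _ (Subgroup.inv_mem _ (mem_zpowers y)) g)

lemma comm_right (hN : ∀ y, y ∉ S → (zpowers y).Normal) {g : G} (hg : g ∉ S) (y : G) :
    ⁅y, g⁆ ∈ zpowers g := by
  rw [← commutatorElement_inv]
  exact Subgroup.inv_mem _ (comm_left hN hg y)

lemma comm_zpow (y g : G) (hy : Commute ⁅y, g⁆ y) (hg : Commute ⁅y, g⁆ g) (a b : ℤ) :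
    ⁅y ^ a, g ^ b⁆ = ⁅y, g⁆ ^ (a * b) := by
  set c := ⁅y, g⁆ with hc
  have h1 : y * g * y⁻¹ = c * g := by rw [hc]; simp only [commutatorElement_def]; group
  have h2 : y * g ^ b * y⁻¹ = c ^ b * g ^ b := by
    rw [← conj_zpow, h1, hg.mul_zpow]
  have h3 : g ^ b * y * (g ^ b)⁻¹ = (c ^ b)⁻¹ * y := by
    have h4 : y * g ^ b = c ^ b * g ^ b * y := by rw [← h2]; group
    have h5 : Commute (c ^ b) y := hy.zpow_left b
    calc g ^ b * y * (g ^ b)⁻¹ = (c ^ b)⁻¹ * (c ^ b * g ^ b * y) * (g ^ b)⁻¹ := by group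
      _ = (c ^ b)⁻¹ * (y * g ^ b) * (g ^ b)⁻¹ := by rw [h4]
      _ = (c ^ b)⁻¹ * y := by group
  have h6 : g ^ b * y ^ a * (g ^ b)⁻¹ = ((c ^ b) ^ a)⁻¹ * y ^ a := by
    have h7 : Commute (c ^ b)⁻¹ y := (hy.zpow_left b).inv_left
    rw [← conj_zpow, h3, h7.mul_zpow, inv_zpow]
  have h8 : Commute (c ^ (a * b)) (y ^ a) := (hy.zpow_left _).zpow_right a
  calc ⁅y ^ a, g ^ b⁆ = y ^ a * (g ^ b * y ^ a * (g ^ b)⁻¹)⁻¹ := by
        simp only [commutatorElement_def]; group
    _ = y ^ a * (((c ^ b) ^ a)⁻¹ * y ^ a)⁻¹ := by rw [h6]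
    _ = (c ^ b) ^ a := by rw [mul_inv_rev, inv_inv, mul_inv_cancel_left]
    _ = c ^ (a * b) := by rw [← zpow_mul, mul_comm b a]

lemma central_aux (hN : ∀ y, y ∉ S → (zpowers y).Normal) {y g h : G} (hy : y ∉ S) (hg : g ∉ S)
    (hh : h ∉ S) : h * ⁅y, g⁆ * h⁻¹ = ⁅y, g⁆ := by
  set c := ⁅y, g⁆ with hc
  have hcy : c ∈ zpowers y := comm_left hN hy g
  have hcg : c ∈ zpowers g := comm_right hN hg y
  obtain ⟨i, hi⟩ := mem_zpowers_iff.mp hcy
  obtain ⟨j, hj⟩ := mem_zpowers_iff.mp hcg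
  obtain ⟨a, ha⟩ := mem_zpowers_iff.mp ((hN y hy).conj_mem y (mem_zpowers y) h)
  obtain ⟨b, hb⟩ := mem_zpowers_iff.mp ((hN g hg).conj_mem g (mem_zpowers g) h)
  have hcomy : Commute c y := by rw [← hi]; exact (Commute.refl y).zpow_left i
  have hcomg : Commute c g := by rw [← hj]; exact (Commute.refl g).zpow_left j
  have e1 : h * c * h⁻¹ = c ^ (a * b) := by
    rw [hc, ← comm_zpow y g hcomy hcomg, ha, hb]
    simp only [commutatorElement_def]; group
  have e2 : h * c * h⁻¹ = c ^ a := by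
    rw [← hi, ← conj_zpow, ← ha, ← zpow_mul, ← zpow_mul, mul_comm]
  have e3 : h * c * h⁻¹ = c ^ b := by
    rw [← hj, ← conj_zpow, ← hb, ← zpow_mul, ← zpow_mul, mul_comm]
  -- `d = h c h⁻¹`
  have e4 : h * (h * c * h⁻¹) * h⁻¹ = h * c * h⁻¹ := by
    calc h * (h * c * h⁻¹) * h⁻¹ = h * c ^ b * h⁻¹ := by rw [e3]
      _ = (h * c * h⁻¹) ^ b := by rw [conj_zpow]
      _ = (c ^ a) ^ b := by rw [e2]
      _ = c ^ (a * b) := by rw [zpow_mul]
      _ = h * c * h⁻¹ := e1.symm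
  have e5 : h * (h * c * h⁻¹) = h * c := mul_right_cancel e4
  exact mul_left_cancel e5

lemma central (hS : S ≠ ⊤) (hN : ∀ y, y ∉ S → (zpowers y).Normal) (a b : G) :
    ⁅a, b⁆ ∈ center G := by
  obtain ⟨k, hk⟩ : ∃ k, k ∉ S := by
    by_contra h
    push Not at h
    exact hS (eq_top_iff.mpr fun g _ => h g)
  have step1 : ∀ y, y ∉ S → ∀ g : G, ∀ h, h ∉ S → h * ⁅y, g⁆ * h⁻¹ = ⁅y, g⁆ := by
    intro y hy g h hh
    by_cases hg : g ∈ S
    · have hgy : g * y ∉ S := fun hm => hy (by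
        have := S.mul_mem (S.inv_mem hg) hm
        simpa using this)
      have e : ⁅y, g⁆ = ⁅y, g * y⁆ := by simp only [commutatorElement_def]; group
      rw [e]; exact central_aux hN hy hgy hh
    · exact central_aux hN hy hg hh
  have step2 : ∀ y, y ∉ S → ∀ g h : G, h * ⁅y, g⁆ * h⁻¹ = ⁅y, g⁆ := by
    intro y hy g h
    by_cases hh : h ∈ S
    · have hhy : h * y ∉ S := fun hm => hy (by
        have := S.mul_mem (S.inv_mem hh) hm
        simpa using this)
      have h1 := step1 y hy g _ hhy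
      obtain ⟨i, hi⟩ := mem_zpowers_iff.mp (comm_left hN hy g)
      have hcomy : Commute y ⁅y, g⁆ := by rw [← hi]; exact (Commute.refl y).zpow_right i
      have e : h * y * ⁅y, g⁆ * (h * y)⁻¹ = h * ⁅y, g⁆ * h⁻¹ := by
        rw [mul_inv_rev, mul_assoc h y, hcomy.eq]; group
      rwa [e] at h1
    · exact step1 y hy g h hh
  have step3 : ∀ y, y ∉ S → ∀ g : G, ⁅y, g⁆ ∈ center G := by
    intro y hy g
    rw [mem_center_iff]
    intro h
    have := step2 y hy g h
    rwa [mul_inv_eq_iff_eq_mul] at this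
  by_cases ha : a ∈ S
  · have hak : a * k ∉ S := fun hm => hk (by
        have := S.mul_mem (S.inv_mem ha) hm
        simpa using this)
    have hki : k⁻¹ ∉ S := fun h => hk (S.inv_mem_iff.mp h)
    have e : ⁅a, b⁆ = (a * k) * ⁅k⁻¹, b⁆ * (a * k)⁻¹ * ⁅a * k, b⁆ := by
      simp only [commutatorElement_def]; group
    rw [e]
    refine Subgroup.mul_mem _ ?_ (step3 _ hak b)
    exact (inferInstance : (center G).Normal).conj_mem _ (step3 _ hki b) _
  · exact step3 a ha b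

lemma comm_mul_left (hc : ∀ a b : G, ⁅a, b⁆ ∈ center G) (a b c : G) :
    ⁅a * b, c⁆ = ⁅a, c⁆ * ⁅b, c⁆ := by
  have e : ⁅a * b, c⁆ = a * ⁅b, c⁆ * a⁻¹ * ⁅a, c⁆ := by
    simp only [commutatorElement_def]; group
  have h1 := mem_center_iff.mp (hc b c) a
  have h2 := mem_center_iff.mp (hc b c) ⁅a, c⁆
  rw [e, h1, mul_inv_cancel_right, h2]

lemma comm_mul_right (hc : ∀ a b : G, ⁅a, b⁆ ∈ center G) (a b c : G) :
    ⁅a, b * c⁆ = ⁅a, b⁆ * ⁅a, c⁆ := by
  have h1 : ⁅a, b * c⁆ = ⁅b * c, a⁆⁻¹ := (commutatorElement_inv _ _).symm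
  rw [h1, comm_mul_left hc, mul_inv_rev, commutatorElement_inv, commutatorElement_inv]
  exact (mem_center_iff.mp (hc a b) ⁅a, c⁆)

/-- the elements of a cyclic `p`-group form a chain with respect to generation -/
lemma chain {p : ℕ} (hp : p.Prime) (w : G) (k : ℕ) (hw : w ^ (p ^ k) = 1) (a b : G)
    (ha : a ∈ zpowers w) (hb : b ∈ zpowers w) : a ∈ zpowers b ∨ b ∈ zpowers a := by
  have key : ∀ i : ℤ, ∃ s : ℕ, w ^ (p ^ s) ∈ zpowers (w ^ i) ∧ ((p ^ s : ℕ) : ℤ) ∣ i := by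
    intro i
    have hd : Int.gcd i (p ^ k : ℕ) ∣ p ^ k := by
      have := Int.gcd_dvd_right i ((p ^ k : ℕ) : ℤ)
      exact_mod_cast this
    obtain ⟨s, _, hs⟩ := (Nat.dvd_prime_pow hp).mp hd
    refine ⟨s, ?_, ?_⟩
    · have hbez := Int.gcd_eq_gcd_ab i ((p ^ k : ℕ) : ℤ)
      have h1 : w ^ (p ^ s) = (w ^ i) ^ (Int.gcdA i ((p ^ k : ℕ) : ℤ)) := by
        rw [← zpow_natCast w (p ^ s), ← hs, hbez, zpow_add, zpow_mul, zpow_mul, zpow_natCast, hw,
          one_zpow, mul_one]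
      rw [h1]
      exact Subgroup.zpow_mem _ (mem_zpowers _) _
    · rw [← hs]; exact Int.gcd_dvd_left i _
  obtain ⟨i, rfl⟩ := mem_zpowers_iff.mp ha
  obtain ⟨j, rfl⟩ := mem_zpowers_iff.mp hb
  obtain ⟨s, hs1, hs2⟩ := key i
  obtain ⟨t, ht1, ht2⟩ := key j
  rcases le_total s t with h | h
  · right
    obtain ⟨r, hr⟩ := (Nat.cast_dvd_cast (α := ℤ) (pow_dvd_pow p h)).trans ht2
    rw [hr, zpow_mul, zpow_natCast]
    exact Subgroup.zpow_mem _ hs1 _
  · left
    obtain ⟨r, hr⟩ := (Nat.cast_dvd_cast (α := ℤ) (pow_dvd_pow p h)).trans hs2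
    rw [hr, zpow_mul, zpow_natCast]
    exact Subgroup.zpow_mem _ ht1 _

/-- being a `p`-th power in the derived subgroup -/
def NP (p : ℕ) (a : G) : Prop := ∃ b ∈ commutator G, a = b ^ p

lemma comm_le_center (hc : ∀ a b : G, ⁅a, b⁆ ∈ center G) : commutator G ≤ center G := by
  rw [_root_.commutator_def, commutator_le]
  intro a _ b _
  exact hc a b

lemma commute_of_mem (hc : ∀ a b : G, ⁅a, b⁆ ∈ center G) {a : G} (ha : a ∈ commutator G) (b : G) :
    Commute a b := (mem_center_iff.mp (comm_le_center hc ha) b).symm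

lemma NP_mul (hc : ∀ a b : G, ⁅a, b⁆ ∈ center G) {p : ℕ} {a b : G} (ha : NP p a) (hb : NP p b) :
    NP p (a * b) := by
  obtain ⟨a', ha', rfl⟩ := ha
  obtain ⟨b', hb', rfl⟩ := hb
  exact ⟨a' * b', Subgroup.mul_mem _ ha' hb', ((commute_of_mem hc ha' b').mul_pow p).symm⟩

lemma NP_inv {p : ℕ} {a : G} (ha : NP p a) : NP p a⁻¹ := by
  obtain ⟨a', ha', rfl⟩ := ha
  exact ⟨a'⁻¹, Subgroup.inv_mem _ ha', by rw [inv_pow]⟩

lemma NP_zpow {p : ℕ} {a : G} (ha : NP p a) (i : ℤ) : NP p (a ^ i) := by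
  obtain ⟨a', ha', rfl⟩ := ha
  exact ⟨a' ^ i, Subgroup.zpow_mem _ ha' i, by
    rw [← zpow_natCast, ← zpow_natCast, ← zpow_mul, ← zpow_mul, mul_comm]⟩

lemma comm_mem' (a b : G) : ⁅a, b⁆ ∈ commutator G :=
  commutator_mem_commutator (mem_top a) (mem_top b)

lemma star (hN : ∀ y, y ∉ S → (zpowers y).Normal) {p : ℕ} (hp : p.Prime)
    (hpp : ∀ y : G, ∃ n : ℕ, y ^ (p ^ n) = 1) {w : G} (hw : w ∉ S) (g g' : G)
    (h : ¬ NP p ⁅w, g⁆) : ⁅w, g'⁆ ∈ zpowers ⁅w, g⁆ := by
  obtain ⟨k, hk⟩ := hpp w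
  rcases chain hp w k hk ⁅w, g⁆ ⁅w, g'⁆ (comm_left hN hw g) (comm_left hN hw g') with h1 | h1
  · obtain ⟨i, hi⟩ := mem_zpowers_iff.mp h1
    have hpi : ¬ (p : ℤ) ∣ i := by
      rintro ⟨t, rfl⟩
      apply h
      refine ⟨⁅w, g'⁆ ^ t, Subgroup.zpow_mem _ (comm_mem' _ _) _, ?_⟩
      rw [← hi, ← zpow_natCast, ← zpow_mul, mul_comm]
    obtain ⟨n, hn⟩ := hpp ⁅w, g'⁆
    have hcop : IsCoprime i ((p ^ n : ℕ) : ℤ) := by
      push_cast
      apply IsCoprime.pow_right
      rw [isCoprime_comm, (Nat.prime_iff_prime_int.mp hp).coprime_iff_not_dvd]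
      exact hpi
    obtain ⟨u, v, huv⟩ := hcop
    rw [mem_zpowers_iff]
    refine ⟨u, ?_⟩
    rw [← hi, ← zpow_mul]
    have : ⁅w, g'⁆ ^ (u * i + v * ((p ^ n : ℕ) : ℤ)) = ⁅w, g'⁆ := by rw [huv, zpow_one]
    rw [zpow_add, mul_comm v, zpow_mul _ ((p ^ n : ℕ) : ℤ), zpow_natCast, hn, one_zpow,
      mul_one] at this
    rw [mul_comm i u]; exact this
  · exact h1

lemma cross (hN : ∀ y, y ∉ S → (zpowers y).Normal) {p : ℕ} (hp : p.Prime)
    (hpp : ∀ y : G, ∃ n : ℕ, y ^ (p ^ n) = 1) {s s' t t' : G} (hs : s ∉ S) (ht : t ∉ S)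
    (h1 : ¬ NP p ⁅s, s'⁆) (h2 : ⁅t, t'⁆ ∉ zpowers ⁅s, s'⁆) : NP p ⁅s, t⁆ := by
  by_contra h3
  have h4 : ⁅s, t⁆ ∈ zpowers ⁅s, s'⁆ := star hN hp hpp hs s' t h1
  have h5 : ¬ NP p ⁅t, s⁆ := by
    intro h
    apply h3
    rw [← commutatorElement_inv]; exact NP_inv h
  have h6 : ⁅t, t'⁆ ∈ zpowers ⁅t, s⁆ := star hN hp hpp ht s t' h5
  apply h2
  have h7 : zpowers ⁅t, s⁆ ≤ zpowers ⁅s, s'⁆ := by
    rw [zpowers_le, (commutatorElement_inv s t).symm]
    exact Subgroup.inv_mem _ h4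
  exact h7 h6

/-- the key step: the derived subgroup is cyclic modulo `p`-th powers -/
lemma key_step (hS : S ≠ ⊤) (hN : ∀ y, y ∉ S → (zpowers y).Normal) {p : ℕ} (hp : p.Prime)
    (hpp : ∀ y : G, ∃ n : ℕ, y ^ (p ^ n) = 1) :
    ∃ e ∈ commutator G, ∀ a ∈ commutator G, ∃ i : ℤ, ∃ b ∈ commutator G, a = e ^ i * b ^ p := by
  have hc := central hS hN
  obtain ⟨k, hk⟩ : ∃ k, k ∉ S := by
    by_contra h
    push Not at h
    exact hS (eq_top_iff.mpr fun g _ => h g)
  -- it suffices to treat commutators of elements outside `S`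
  have red : ∀ e ∈ commutator G, (∀ u v, u ∉ S → v ∉ S → ∃ i : ℤ, ∃ n, NP p n ∧ ⁅u, v⁆ = e ^ i * n) →
      ∀ a ∈ commutator G, ∃ i : ℤ, ∃ b ∈ commutator G, a = e ^ i * b ^ p := by
    intro e he h
    have hmul : ∀ a a' : G, (∃ i : ℤ, ∃ n, NP p n ∧ a = e ^ i * n) →
        (∃ i : ℤ, ∃ n, NP p n ∧ a' = e ^ i * n) → ∃ i : ℤ, ∃ n, NP p n ∧ a * a' = e ^ i * n := by
      rintro a a' ⟨i, n, hn, rfl⟩ ⟨j, m, hm, rfl⟩
      refine ⟨i + j, n * m, NP_mul hc hn hm, ?_⟩
      have : Commute n (e ^ j) := (commute_of_mem hc (Subgroup.zpow_mem _ he j) n).symm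
      calc e ^ i * n * (e ^ j * m) = e ^ i * (n * e ^ j) * m := by group
        _ = e ^ i * (e ^ j * n) * m := by rw [this.eq]
        _ = e ^ (i + j) * (n * m) := by rw [zpow_add]; group
    have hinv : ∀ a : G, (∃ i : ℤ, ∃ n, NP p n ∧ a = e ^ i * n) →
        ∃ i : ℤ, ∃ n, NP p n ∧ a⁻¹ = e ^ i * n := by
      rintro a ⟨i, n, hn, rfl⟩
      refine ⟨-i, n⁻¹, NP_inv hn, ?_⟩
      have : Commute n (e ^ i) := (commute_of_mem hc (Subgroup.zpow_mem _ he i) n).symm
      rw [← this.eq, mul_inv_rev, zpow_neg]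
    have h1 : ∀ u, u ∉ S → ∀ b : G, ∃ i : ℤ, ∃ n, NP p n ∧ ⁅u, b⁆ = e ^ i * n := by
      intro u hu b
      by_cases hb : b ∈ S
      · have hbk : b * k ∉ S := fun hm => hk (by
          have := S.mul_mem (S.inv_mem hb) hm
          simpa using this)
        have hki : k⁻¹ ∉ S := fun h => hk (S.inv_mem_iff.mp h)
        have e1 : ⁅u, b⁆ = ⁅u, b * k⁆ * ⁅u, k⁻¹⁆ := by
          rw [← comm_mul_right hc, mul_inv_cancel_right]
        rw [e1]
        exact hmul _ _ (h u _ hu hbk) (h u _ hu hki)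
      · exact h u b hu hb
    have h2 : ∀ a b : G, ∃ i : ℤ, ∃ n, NP p n ∧ ⁅a, b⁆ = e ^ i * n := by
      intro a b
      by_cases ha : a ∈ S
      · have hak : a * k ∉ S := fun hm => hk (by
          have := S.mul_mem (S.inv_mem ha) hm
          simpa using this)
        have hki : k⁻¹ ∉ S := fun h => hk (S.inv_mem_iff.mp h)
        have e1 : ⁅a, b⁆ = ⁅a * k, b⁆ * ⁅k⁻¹, b⁆ := by
          rw [← comm_mul_left hc, mul_inv_cancel_right]
        rw [e1]
        exact hmul _ _ (h1 _ hak b) (h1 _ hki b)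
      · exact h1 a ha b
    intro a ha
    have h3 : ∃ i : ℤ, ∃ n, NP p n ∧ a = e ^ i * n := by
      rw [_root_.commutator_def, Subgroup.commutator_def] at ha
      induction ha using Subgroup.closure_induction with
      | mem x hx =>
        obtain ⟨a, _, b, _, rfl⟩ := hx
        exact h2 a b
      | one => exact ⟨0, 1, ⟨1, Subgroup.one_mem _, by simp⟩, by simp⟩
      | mul x y _ _ hx hy => exact hmul x y hx hy
      | inv x _ hx => exact hinv x hx
    obtain ⟨i, n, ⟨b, hb, rfl⟩, h4⟩ := h3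
    exact ⟨i, b, hb, h4⟩
  by_cases hall : ∀ u v, u ∉ S → v ∉ S → NP p ⁅u, v⁆
  · refine ⟨1, Subgroup.one_mem _, red 1 (Subgroup.one_mem _) ?_⟩
    intro u v hu hv
    exact ⟨0, ⁅u, v⁆, hall u v hu hv, by simp⟩
  · push Not at hall
    obtain ⟨y, z, hy, hz, hyz⟩ := hall
    refine ⟨⁅y, z⁆, comm_mem' _ _, red _ (comm_mem' _ _) ?_⟩
    intro u v hu hv
    by_contra hcon
    push Not at hcon
    have hzy : ¬ NP p ⁅z, y⁆ := by
      intro h; apply hyz; rw [← commutatorElement_inv]; exact NP_inv h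
    have hnot : ⁅u, v⁆ ∉ zpowers ⁅y, z⁆ := by
      intro h
      obtain ⟨i, hi⟩ := mem_zpowers_iff.mp h
      exact hcon i 1 ⟨1, Subgroup.one_mem _, by simp⟩ (by rw [hi, mul_one])
    have hnot2 : ⁅v, u⁆ ∉ zpowers ⁅y, z⁆ := by
      intro h
      apply hnot
      rw [(commutatorElement_inv v u).symm]; exact Subgroup.inv_mem _ h
    have hzz : zpowers ⁅z, y⁆ = zpowers ⁅y, z⁆ := by
      rw [← commutatorElement_inv y z, zpowers_inv]
    have n1 : NP p ⁅y, u⁆ := cross hN hp hpp hy hu hyz hnot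
    have n2 : NP p ⁅y, v⁆ := cross hN hp hpp hy hv hyz hnot2
    have n3 : NP p ⁅z, u⁆ := cross hN hp hpp hz hu hzy (by rw [hzz]; exact hnot)
    have n4 : NP p ⁅z, v⁆ := cross hN hp hpp hz hv hzy (by rw [hzz]; exact hnot2)
    have n3' : NP p ⁅u, z⁆ := by rw [← commutatorElement_inv]; exact NP_inv n3
    -- the common argument
    have fin : ∀ w, w ∉ S → (∃ n, NP p n ∧ ⁅w, z⁆ = ⁅y, z⁆ * n) →
        (∃ n, NP p n ∧ ⁅w, v⁆ = ⁅u, v⁆ * n) → False := by
      rintro w hw ⟨n, hn, e1⟩ ⟨m, hm, e2⟩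
      have h1 : ¬ NP p ⁅w, z⁆ := by
        intro h
        apply hyz
        have : ⁅y, z⁆ = ⁅w, z⁆ * n⁻¹ := by rw [e1]; group
        rw [this]; exact NP_mul hc h (NP_inv hn)
      have h2 : ⁅w, v⁆ ∈ zpowers ⁅w, z⁆ := star hN hp hpp hw z v h1
      obtain ⟨i, hi⟩ := mem_zpowers_iff.mp h2
      rw [e1, e2] at hi
      have h3 : Commute ⁅y, z⁆ n := commute_of_mem hc (comm_mem' _ _) n
      rw [h3.mul_zpow] at hi
      refine hcon i (n ^ i * m⁻¹) (NP_mul hc (NP_zpow hn i) (NP_inv hm)) ?_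
      rw [← mul_assoc, hi, mul_inv_cancel_right]
    by_cases hyu : y * u ∈ S
    · have hw : y * u * z ∉ S := by
        intro h
        apply hz
        have := S.mul_mem (S.inv_mem hyu) h
        rwa [inv_mul_cancel_left] at this
      refine fin (y * u * z) hw ⟨⁅u, z⁆, n3', ?_⟩ ⟨⁅y, v⁆ * ⁅z, v⁆, NP_mul hc n2 n4, ?_⟩
      · rw [comm_mul_left hc, comm_mul_left hc, commutatorElement_self, mul_one]
      · rw [comm_mul_left hc, comm_mul_left hc]
        have h5 : Commute ⁅y, v⁆ ⁅u, v⁆ := commute_of_mem hc (comm_mem' _ _) _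
        rw [h5.eq, mul_assoc]
    · refine fin (y * u) hyu ⟨⁅u, z⁆, n3', comm_mul_left hc _ _ _⟩ ⟨⁅y, v⁆, n2, ?_⟩
      rw [comm_mul_left hc]
      exact (commute_of_mem hc (comm_mem' _ _) _ : Commute ⁅y, v⁆ ⁅u, v⁆).eq

lemma iterate (hc : ∀ a b : G, ⁅a, b⁆ ∈ center G) {p : ℕ} {e : G} (he : e ∈ commutator G)
    (h : ∀ a ∈ commutator G, ∃ i : ℤ, ∃ b ∈ commutator G, a = e ^ i * b ^ p) (n : ℕ) :
    ∀ a ∈ commutator G, ∃ i : ℤ, ∃ b ∈ commutator G, a = e ^ i * b ^ (p ^ n) := by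
  induction n with
  | zero => intro a ha; exact ⟨0, a, ha, by simp⟩
  | succ n ih =>
    intro a ha
    obtain ⟨i, b, hb, rfl⟩ := ih a ha
    obtain ⟨j, b', hb', rfl⟩ := h b hb
    refine ⟨i + j * (p ^ n : ℕ), b', hb', ?_⟩
    have : Commute (e ^ j) (b' ^ p) := commute_of_mem hc (Subgroup.zpow_mem _ he j) _
    rw [this.mul_pow, ← pow_mul, zpow_add, mul_assoc, pow_succ' p n, mul_comm p (p ^ n),
      zpow_mul, zpow_natCast, mul_comm (p ^ n) p]

end Abstract

section Final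
variable [IsTopologicalGroup G] [CompactSpace G] [T2Space G] [TotallyDisconnectedSpace G]

/-- the derived subgroup is finite cyclic -/
theorem derived_eq_zpowers {p : ℕ} (hp : p.Prime) (hG : ProP p G) {S : Subgroup G} (hS : Hyp S)
    (hna : ∃ a b : G, a * b ≠ b * a) :
    ∃ e : G, IsOfFinOrder e ∧ commutator G = zpowers e := by
  have hper := periodic hp hG hS hna
  have hN : ∀ y, y ∉ S → (zpowers y).Normal := by
    intro y hy
    have hA : (zpowers y : Set G).Finite := (hper y).finite_zpowers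
    exact hS.2 _ hA.isClosed (fun h => hy (h (mem_zpowers y)))
  have hpp : ∀ y : G, ∃ n : ℕ, y ^ (p ^ n) = 1 := fun y => order_ppow hG y (hper y)
  obtain ⟨e, he, h⟩ := key_step hS.1 hN hp hpp
  refine ⟨e, hper e, le_antisymm ?_ (by rw [zpowers_le]; exact he)⟩
  intro a ha
  by_contra hcon
  have hF : (zpowers e : Set G).Finite := (hper e).finite_zpowers
  have ho : IsOpen {g : G | a * g ∉ (zpowers e : Set G)} :=
    (hF.isClosed.isOpen_compl).preimage (continuous_const_mul a)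
  obtain ⟨W, hW⟩ := ProfiniteGrp.exist_openNormalSubgroup_sub_open_nhds_of_one
    (G := G) ho (by simpa using hcon)
  obtain ⟨n, hn⟩ := hG W.toSubgroup W.isNormal' W.isOpen'
  obtain ⟨i, b, hb, hab⟩ := iterate (central hS.1 hN) he h n a ha
  have h1 : b ^ (p ^ n) ∈ W.toSubgroup := by
    rw [← hn]
    have := W.isNormal'
    exact W.toSubgroup.pow_index_mem b
  have h2 := hW (W.toSubgroup.inv_mem h1)
  apply h2
  show a * (b ^ (p ^ n))⁻¹ ∈ zpowers e
  rw [hab, mul_inv_cancel_right]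
  exact Subgroup.zpow_mem _ (mem_zpowers e) i

end Final

end Pool.Agent.R879.Cappitt
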