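import Mathlib

/-!
# Frobenius' theorem for powers of a prime

`dvd_sum_of_orbits`: divisibility of a sum of an invariant function over an invariant set from the
divisibility of the sums over orbits.

`frobenius_prime_pow`: in a finite group `G`, the number of solutions of `x ^ (p ^ j) = 1` is
divisible by `p ^ min j e`, where `p ^ e` is the `p`-part of `|G|`.
-/

set_option autoImplicit false

namespace Pool.Agent.R879.FrobP

open Finset

lemma dvd_sum_of_orbits {Γ X : Type*} [Group Γ] [MulAction Γ X] [Finite X] (Y : Finset X)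
    (hY : ∀ (g : Γ) (y : X), y ∈ Y → g • y ∈ Y) (F : X → ℤ)
    (hF : ∀ (g : Γ) (y : X), y ∈ Y → F (g • y) = F y) (D : ℤ)
    (h : ∀ y ∈ Y, D ∣ (Nat.card (MulAction.orbit Γ y) : ℤ) * F y) : D ∣ ∑ y ∈ Y, F y := by
  classical
  have := Fintype.ofFinite X
  let π : X → Quotient (MulAction.orbitRel Γ X) := Quotient.mk _
  rw [← Finset.sum_fiberwise_of_maps_to (g := π) (t := Y.image π)
    (fun y hy => mem_image_of_mem _ hy)]
  apply Finset.dvd_sum
  intro o ho
  obtain ⟨y0, hy0, rfl⟩ := mem_image.mp ho
  have hmem : ∀ y, π y = π y0 ↔ y ∈ MulAction.orbit Γ y0 := by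
    intro y
    rw [Quotient.eq, MulAction.orbitRel_apply]
  have hc : ∀ y ∈ Y.filter (fun y => π y = π y0), F y = F y0 := by
    intro y hy
    obtain ⟨g, rfl⟩ := (hmem y).mp (mem_filter.mp hy).2
    exact hF g y0 hy0
  have hcard : (Y.filter (fun y => π y = π y0)).card = Nat.card (MulAction.orbit Γ y0) := by
    have : Y.filter (fun y => π y = π y0) = (MulAction.orbit Γ y0).toFinset := by
      ext y
      rw [mem_filter, hmem, Set.mem_toFinset]
      constructor
      · exact fun h => h.2
      · rintro ⟨g, rfl⟩
        exact ⟨hY g y0 hy0, g, rfl⟩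
    rw [this, Nat.card_eq_fintype_card, Set.toFinset_card]
  rw [Finset.sum_congr rfl hc, sum_const, nsmul_eq_mul, hcard]
  exact h y0 hy0

/-- `x` has `p`-power order. -/
def PElt {G : Type*} [Group G] (p : ℕ) (x : G) : Prop := ∃ k : ℕ, x ^ (p ^ k) = 1

lemma pElt_iff {G : Type*} [Group G] [Finite G] {p : ℕ} (hp : p.Prime) (x : G) {j : ℕ}
    (hj : (Nat.card G).factorization p ≤ j) : PElt p x ↔ x ^ (p ^ j) = 1 := by
  refine ⟨?_, fun h => ⟨j, h⟩⟩
  rintro ⟨k, hk⟩
  obtain ⟨i, _, hi⟩ := (Nat.dvd_prime_pow hp).mp (orderOf_dvd_of_pow_eq_one hk)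
  have h1 : p ^ i ∣ Nat.card G := hi ▸ orderOf_dvd_natCard x
  have h2 : i ≤ (Nat.card G).factorization p :=
    (hp.pow_dvd_iff_le_factorization Nat.card_pos.ne').mp h1
  apply orderOf_dvd_iff_pow_eq_one.mp
  rw [hi]
  exact pow_dvd_pow p (h2.trans hj)

/-- The number of elements of `p`-power order is divisible by the `p`-part of the order. -/
theorem card_pElt (p : ℕ) (hp : p.Prime) : ∀ (n : ℕ) (G : Type) [Group G] [Finite G],
    Nat.card G = n → p ^ ((Nat.card G).factorization p) ∣ Nat.card {x : G // PElt p x} := by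
  intro n
  induction n using Nat.strong_induction_on with
  | _ n ih =>
  intro G _ _ hn
  classical
  have := Fintype.ofFinite G
  set N := Nat.card G with hN
  have hNpos : N ≠ 0 := Nat.card_pos.ne'
  set e := N.factorization p with he
  set m := N / p ^ e with hm
  have hNm : p ^ e * m = N := Nat.ordProj_mul_ordCompl_eq_self N p
  have hcop : Nat.Coprime (p ^ e) m := Nat.Coprime.pow_left _ (Nat.coprime_ordCompl hp hNpos)
  obtain ⟨s, hs1, hs2⟩ := Nat.chineseRemainder hcop 0 1
  obtain ⟨t, ht1, ht2⟩ := Nat.chineseRemainder hcop 1 0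
  have hst : s + t ≡ 1 [MOD N] := by
    rw [← hNm]
    refine (Nat.modEq_and_modEq_iff_modEq_mul hcop).mp ⟨?_, ?_⟩
    · simpa using hs1.add ht1
    · simpa using hs2.add ht2
  have hxN : ∀ x : G, x ^ N = 1 := fun x => by rw [hN]; exact pow_card_eq_one'
  have hxst : ∀ x : G, x ^ t * x ^ s = x := by
    intro x
    rw [← pow_add, add_comm]
    have := pow_eq_pow_of_modEq hst (hxN x)
    simpa using this
  have hps : p ^ e ∣ s := (Nat.modEq_zero_iff_dvd).mp hs1
  have hmt : m ∣ t := (Nat.modEq_zero_iff_dvd).mp ht2
  -- the function counting `p`-elements in centralizers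
  let F : G → ℤ := fun z => (univ.filter fun a : G => PElt p a ∧ Commute a z).card
  have hp1 : ∀ a : G, PElt p a ↔ a ^ (p ^ e) = 1 := fun a => pElt_iff hp a le_rfl
  have hsum : (N : ℤ) = ∑ z ∈ univ.filter (fun z : G => z ^ m = 1), F z := by
    have h1 : (univ : Finset G).card = ∑ z ∈ univ.filter (fun z : G => z ^ m = 1),
        (univ.filter fun x : G => x ^ s = z).card := by
      apply Finset.card_eq_sum_card_fiberwise
      intro x _
      simp only [coe_filter, mem_univ, true_and, Set.mem_ofPred_eq]
      rw [← pow_mul]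
      obtain ⟨c, hc⟩ := hps
      rw [hc, mul_assoc, mul_comm c m, ← mul_assoc, hNm, pow_mul, hxN, one_pow]
    rw [hN, Nat.card_eq_fintype_card, ← Finset.card_univ, h1, Nat.cast_sum]
    refine Finset.sum_congr rfl fun z hz => ?_
    have hz' : z ^ m = 1 := (mem_filter.mp hz).2
    simp only [F]
    norm_cast
    refine Finset.card_bij' (fun x _ => x ^ t) (fun a _ => a * z) ?_ ?_ ?_ ?_
    · intro x hx
      have hx' : x ^ s = z := (mem_filter.mp hx).2
      rw [mem_filter]
      refine ⟨mem_univ _, (hp1 _).mpr ?_, ?_⟩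
      · rw [← pow_mul]
        obtain ⟨c, hc⟩ := hmt
        rw [hc, mul_assoc, mul_comm c, ← mul_assoc, mul_comm m, hNm, pow_mul, hxN, one_pow]
      · rw [← hx']
        exact (Commute.refl x).pow_pow t s
    · intro a ha
      obtain ⟨ha1, ha2⟩ := (mem_filter.mp ha).2
      rw [mem_filter]
      refine ⟨mem_univ _, ?_⟩
      rw [ha2.mul_pow]
      have h2 : a ^ s = 1 := by
        obtain ⟨c, hc⟩ := hps
        rw [hc, pow_mul, (hp1 a).mp ha1, one_pow]
      have h3 : z ^ s = z := by
        have := pow_eq_pow_of_modEq hs2 hz'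
        simpa using this
      rw [h2, h3, one_mul]
    · intro x hx
      have hx' : x ^ s = z := (mem_filter.mp hx).2
      rw [← hx']
      exact hxst x
    · intro a ha
      obtain ⟨ha1, ha2⟩ := (mem_filter.mp ha).2
      rw [ha2.mul_pow]
      have h2 : a ^ t = a := by
        have := pow_eq_pow_of_modEq ht1 ((hp1 a).mp ha1)
        simpa using this
      have h3 : z ^ t = 1 := by
        obtain ⟨c, hc⟩ := hmt
        rw [hc, pow_mul, hz', one_pow]
      rw [h2, h3, mul_one]
  -- split into central and noncentral elements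
  set E := univ.filter (fun z : G => z ^ m = 1) with hE
  have hsplit : ∑ z ∈ E, F z = ∑ z ∈ E.filter (fun z => z ∈ Subgroup.center G), F z +
      ∑ z ∈ E.filter (fun z => z ∉ Subgroup.center G), F z :=
    (Finset.sum_filter_add_sum_filter_not E _ F).symm
  have hcen : ∀ z ∈ E.filter (fun z => z ∈ Subgroup.center G),
      F z = (Nat.card {x : G // PElt p x} : ℤ) := by
    intro z hz
    have hz' := (mem_filter.mp hz).2
    simp only [F]
    rw [Nat.card_eq_fintype_card, Fintype.card_subtype]
    congr 2
    ext a
    simp only [mem_filter, mem_univ, true_and, and_iff_left_iff_imp]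
    intro _
    exact (Subgroup.mem_center_iff.mp hz' a)
  have hnon : (p ^ e : ℤ) ∣ ∑ z ∈ E.filter (fun z => z ∉ Subgroup.center G), F z := by
    apply dvd_sum_of_orbits (Γ := ConjAct G)
    · intro g y hy
      rw [mem_filter, hE, mem_filter] at hy ⊢
      refine ⟨⟨mem_univ _, ?_⟩, ?_⟩
      · rw [← smul_pow', hy.1.2, smul_one]
      · intro h
        apply hy.2
        have h2 := (Subgroup.normal_of_characteristic (Subgroup.center G)).conj_mem _ h
          (ConjAct.ofConjAct g)⁻¹
        rw [ConjAct.smul_def] at h2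
        simpa [mul_assoc] using h2
    · intro g y _
      simp only [F]
      norm_cast
      refine Finset.card_bij' (fun a _ => g⁻¹ • a) (fun a _ => g • a) ?_ ?_ ?_ ?_
      · intro a ha
        rw [mem_filter] at ha ⊢
        obtain ⟨_, ⟨k, hk⟩, hc⟩ := ha
        refine ⟨mem_univ _, ⟨k, by rw [← smul_pow', hk, smul_one]⟩, ?_⟩
        have := congrArg (fun b => g⁻¹ • b) hc.eq
        simp only [smul_mul', inv_smul_smul] at this
        exact this
      · intro a ha
        rw [mem_filter] at ha ⊢
        obtain ⟨_, ⟨k, hk⟩, hc⟩ := ha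
        refine ⟨mem_univ _, ⟨k, by rw [← smul_pow', hk, smul_one]⟩, ?_⟩
        have := congrArg (fun b => g • b) hc.eq
        simp only [smul_mul'] at this
        exact this
      · intro a _; simp
      · intro a _; simp
    · intro z hz
      rw [mem_filter] at hz
      set C := Subgroup.centralizer ({z} : Set G) with hC
      have hCcard : Nat.card C < n := by
        rw [← hn]
        refine lt_of_le_of_ne (Subgroup.card_le_card_group C) fun h => hz.2 ?_
        have : C = ⊤ := Subgroup.eq_top_of_card_eq C h
        rw [Subgroup.mem_center_iff]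
        intro g
        have hg : g ∈ C := by rw [this]; trivial
        exact (Subgroup.mem_centralizer_singleton_iff.mp hg)
      have hF : F z = (Nat.card {x : C // PElt p x} : ℤ) := by
        simp only [F]
        norm_cast
        rw [← Fintype.card_subtype, ← Nat.card_eq_fintype_card]
        refine Nat.card_congr ⟨fun a => ⟨⟨a.1, ?_⟩, ?_⟩, fun a => ⟨a.1.1, ?_, ?_⟩, ?_, ?_⟩
        · exact Subgroup.mem_centralizer_singleton_iff.mpr a.2.2
        · obtain ⟨k, hk⟩ := a.2.1
          exact ⟨k, Subtype.ext hk⟩
        · obtain ⟨k, hk⟩ := a.2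
          exact ⟨k, congrArg Subtype.val hk⟩
        · exact Subgroup.mem_centralizer_singleton_iff.mp a.1.2
        · intro a; rfl
        · intro a; rfl
      have horb : Nat.card (MulAction.orbit (ConjAct G) z) * Nat.card C = N := by
        have h1 := Nat.card_congr (MulAction.orbitProdStabilizerEquivGroup (ConjAct G) z)
        rw [Nat.card_prod] at h1
        have h2 : Nat.card (MulAction.stabilizer (ConjAct G) z) = Nat.card C := by
          rw [ConjAct.stabilizer_eq_centralizer]
          rfl
        rw [h2] at h1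
        exact h1
      have hIH := ih _ hCcard C rfl
      rw [hF]
      have hCpos : Nat.card C ≠ 0 := Nat.card_pos.ne'
      have hopos : Nat.card (MulAction.orbit (ConjAct G) z) ≠ 0 := by
        intro h
        rw [h, zero_mul] at horb
        exact hNpos horb.symm
      have hfac : e = (Nat.card (MulAction.orbit (ConjAct G) z)).factorization p +
          (Nat.card C).factorization p := by
        rw [he, ← horb, Nat.factorization_mul hopos hCpos]; rfl
      norm_cast
      rw [hfac, pow_add]
      exact mul_dvd_mul (Nat.ordProj_dvd _ _) hIH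
  rw [Finset.sum_congr rfl hcen, sum_const, nsmul_eq_mul] at hsplit
  rw [← hsum] at hsplit
  -- the number of central `p'`-elements is prime to `p`
  let K : Subgroup G :=
    { carrier := {z | z ∈ Subgroup.center G ∧ z ^ m = 1}
      one_mem' := ⟨Subgroup.one_mem _, one_pow _⟩
      mul_mem' := by
        rintro a b ⟨ha, ha'⟩ ⟨hb, hb'⟩
        refine ⟨Subgroup.mul_mem _ ha hb, ?_⟩
        have hcm : Commute a b := (Subgroup.mem_center_iff.mp hb a)
        rw [hcm.mul_pow, ha', hb', one_mul]
      inv_mem' := by
        rintro a ⟨ha, ha'⟩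
        exact ⟨Subgroup.inv_mem _ ha, by rw [inv_pow, ha', inv_one]⟩ }
  have hK : (E.filter (fun z => z ∈ Subgroup.center G)).card = Nat.card K := by
    have : E.filter (fun z => z ∈ Subgroup.center G) = univ.filter (fun z => z ∈ K) := by
      ext z
      simp only [hE, mem_filter, mem_univ, true_and]
      exact and_comm
    rw [this, ← Fintype.card_subtype, ← Nat.card_eq_fintype_card]
  have hpK : ¬ p ∣ Nat.card K := by
    intro h
    have : Fact p.Prime := ⟨hp⟩
    obtain ⟨z, hz⟩ := exists_prime_orderOf_dvd_card' p h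
    have h1 : z ^ m = 1 := Subtype.ext z.2.2
    have h2 : p ∣ m := hz ▸ orderOf_dvd_of_pow_eq_one h1
    exact (Nat.not_dvd_ordCompl hp hNpos) h2
  rw [hK] at hsplit
  have hdiv : (p ^ e : ℤ) ∣ (Nat.card K : ℤ) * (Nat.card {x : G // PElt p x} : ℤ) := by
    have h1 : (p ^ e : ℤ) ∣ (N : ℤ) := by
      exact_mod_cast Nat.ordProj_dvd N p
    rw [hsplit] at h1
    exact (dvd_add_left hnon).mp h1
  have hdiv' : p ^ e ∣ Nat.card K * Nat.card {x : G // PElt p x} := by exact_mod_cast hdiv
  exact Nat.Coprime.dvd_of_dvd_mul_left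
    (Nat.Coprime.pow_left _ ((Nat.Prime.coprime_iff_not_dvd hp).mpr hpK)) hdiv'

/-- The number of generators of a cyclic subgroup. -/
lemma card_zpowers_eq {G : Type} [Group G] [Finite G] (x : G) :
    Nat.card {y : G // Subgroup.zpowers y = Subgroup.zpowers x} = (orderOf x).totient := by
  classical
  have := Fintype.ofFinite G
  have h := IsCyclic.card_orderOf_eq_totient (α := Subgroup.zpowers x) (d := orderOf x)
    (by rw [← Nat.card_eq_fintype_card, Nat.card_zpowers])
  rw [← h, ← Fintype.card_subtype, ← Nat.card_eq_fintype_card]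
  refine Nat.card_congr ⟨fun y => ⟨⟨y.1, ?_⟩, ?_⟩, fun y => ⟨y.1.1, ?_⟩, ?_, ?_⟩
  · exact y.2.le (Subgroup.mem_zpowers y.1)
  · rw [← Subgroup.orderOf_coe]
    simp only
    rw [← Nat.card_zpowers, y.2, Nat.card_zpowers]
  · apply Subgroup.eq_of_le_of_card_ge
    · rw [Subgroup.zpowers_le]; exact y.1.2
    · rw [Nat.card_zpowers, Nat.card_zpowers, Subgroup.orderOf_coe, y.2]
  · intro y; rfl
  · intro y; rfl

lemma totient_dvd_card_orderOf {G : Type} [Group G] [Finite G] (d : ℕ) :
    d.totient ∣ Nat.card {x : G // orderOf x = d} := by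
  classical
  have := Fintype.ofFinite G
  rw [Nat.card_eq_fintype_card, Fintype.card_subtype]
  rw [Finset.card_eq_sum_card_image (fun x : G => Subgroup.zpowers x)]
  apply Finset.dvd_sum
  intro C hC
  obtain ⟨x, hx, rfl⟩ := mem_image.mp hC
  have hx' : orderOf x = d := (mem_filter.mp hx).2
  rw [filter_filter]
  have : (univ.filter fun y : G => orderOf y = d ∧ Subgroup.zpowers y = Subgroup.zpowers x) =
      univ.filter fun y : G => Subgroup.zpowers y = Subgroup.zpowers x := by
    ext y
    simp only [mem_filter, mem_univ, true_and, and_iff_right_iff_imp]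
    intro h
    rw [← Nat.card_zpowers, h, Nat.card_zpowers, hx']
  rw [this, ← Fintype.card_subtype, ← Nat.card_eq_fintype_card, card_zpowers_eq, hx']

/-- Frobenius' theorem for powers of a prime. -/
theorem frobenius_prime_pow (p : ℕ) (hp : p.Prime) (G : Type) [Group G] [Finite G] (j : ℕ) :
    p ^ (min j ((Nat.card G).factorization p)) ∣ Nat.card {x : G // x ^ (p ^ j) = 1} := by
  classical
  have := Fintype.ofFinite G
  have : Fact p.Prime := ⟨hp⟩
  set e := (Nat.card G).factorization p with he
  -- the case `j ≥ e`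
  have hbig : ∀ j, e ≤ j → p ^ e ∣ Nat.card {x : G // x ^ (p ^ j) = 1} := by
    intro j hj
    have h1 := card_pElt p hp _ G rfl
    rw [← he] at h1
    have h2 : Nat.card {x : G // PElt p x} = Nat.card {x : G // x ^ (p ^ j) = 1} :=
      Nat.card_congr (Equiv.subtypeEquivRight fun x => pElt_iff hp x hj)
    rwa [h2] at h1
  rcases le_or_gt e j with hj | hj
  · rw [min_eq_right hj]; exact hbig j hj
  · rw [min_eq_left hj.le]
    obtain ⟨i, hi⟩ : ∃ i, j + i = e := ⟨e - j, by omega⟩
    clear hj
    induction i generalizing j with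
    | zero =>
      rw [add_zero] at hi
      subst hi
      exact hbig _ le_rfl
    | succ i ih =>
      have h1 := ih (j + 1) (by omega)
      have h2 : Nat.card {x : G // x ^ (p ^ (j + 1)) = 1} =
          Nat.card {x : G // x ^ (p ^ j) = 1} + Nat.card {x : G // orderOf x = p ^ (j + 1)} := by
        simp only [Nat.card_eq_fintype_card, Fintype.card_subtype]
        rw [← Finset.card_union_of_disjoint]
        · congr 1
          ext x
          simp only [mem_union, mem_filter, mem_univ, true_and]
          constructor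
          · intro h
            by_cases h3 : x ^ (p ^ j) = 1
            · exact Or.inl h3
            · exact Or.inr (orderOf_eq_prime_pow h3 h)
          · rintro (h | h)
            · rw [pow_succ, pow_mul, h, one_pow]
            · rw [← h]; exact pow_orderOf_eq_one x
        · rw [Finset.disjoint_filter]
          intro x _ h h3
          have h4 := orderOf_dvd_of_pow_eq_one h
          rw [h3] at h4
          have h5 := (Nat.pow_dvd_pow_iff_le_right hp.one_lt).mp h4
          omega
      have h3 : p ^ j ∣ Nat.card {x : G // orderOf x = p ^ (j + 1)} := by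
        refine dvd_trans ?_ (totient_dvd_card_orderOf (p ^ (j + 1)))
        rw [Nat.totient_prime_pow_succ hp]
        exact dvd_mul_right _ _
      have h4 : p ^ j ∣ Nat.card {x : G // x ^ (p ^ (j + 1)) = 1} :=
        (pow_dvd_pow p (Nat.le_succ j)).trans h1
      rw [h2] at h4
      exact (Nat.dvd_add_left h3).mp h4

end Pool.Agent.R879.FrobP
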