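import Mathlib

/-!
# Lovasz's form of the Kruskal-Katona theorem, for real `x`

The clique version: an `r`-uniform family with at most `binom x r` members (`x ≥ r` real) has at most
`binom x (r + 1)` complete `(r + 1)`-sets.
-/

set_option autoImplicit false

namespace Pool.Agent.R879

open Finset

/-- The generalised binomial coefficient `x (x - 1) ⋯ (x - k + 1) / k!` of a real number `x`. -/
noncomputable def binom (x : ℝ) (k : ℕ) : ℝ := (∏ j ∈ range k, (x - j)) / (k.factorial : ℝ)

theorem binom_zero (x : ℝ) : binom x 0 = 1 := by simp [binom]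

theorem binom_succ (x : ℝ) (k : ℕ) : binom x (k + 1) * (k + 1) = binom x k * (x - k) := by
  unfold binom
  rw [prod_range_succ, Nat.factorial_succ]
  have h1 : (k.factorial : ℝ) ≠ 0 := by positivity
  have h2 : ((k : ℝ) + 1) ≠ 0 := by positivity
  push_cast
  field_simp

theorem binom_nat (n : ℕ) : ∀ k, binom n k = (n.choose k : ℝ)
  | 0 => by simp [binom_zero]
  | k + 1 => by
    have h1 := binom_succ (n : ℝ) k
    rw [binom_nat n k] at h1
    have h2 : ((n.choose (k + 1) : ℝ)) * (k + 1) = (n.choose k : ℝ) * (n - k) := by
      rcases le_or_gt k n with hk | hk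
      · have := Nat.choose_succ_right_eq n k
        rw [← Nat.cast_sub hk]
        exact_mod_cast this
      · rw [Nat.choose_eq_zero_of_lt hk, Nat.choose_eq_zero_of_lt (by omega)]
        simp
    have h3 : ((k : ℝ) + 1) ≠ 0 := by positivity
    exact mul_right_cancel₀ h3 (h1.trans h2.symm)

theorem binom_nonneg {x : ℝ} {k : ℕ} (h : (k : ℝ) - 1 ≤ x) : 0 ≤ binom x k := by
  unfold binom
  apply div_nonneg _ (by positivity)
  apply prod_nonneg
  intro j hj
  rw [mem_range] at hj
  have : (j : ℝ) + 1 ≤ k := by exact_mod_cast hj
  linarith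

theorem binom_pos {x : ℝ} {k : ℕ} (h : (k : ℝ) - 1 < x) : 0 < binom x k := by
  unfold binom
  apply div_pos _ (by positivity)
  apply prod_pos
  intro j hj
  rw [mem_range] at hj
  have : (j : ℝ) + 1 ≤ k := by exact_mod_cast hj
  linarith

theorem binom_strictMono {x y : ℝ} {k : ℕ} (hk : 1 ≤ k) (h : (k : ℝ) - 1 ≤ x) (hxy : x < y) :
    binom x k < binom y k := by
  rcases h.lt_or_eq with h1 | h1
  · unfold binom
    apply div_lt_div_of_pos_right _ (by positivity)
    apply prod_lt_prod
    · intro j hj
      rw [mem_range] at hj
      have : (j : ℝ) + 1 ≤ k := by exact_mod_cast hj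
      linarith
    · intro j _
      linarith
    · exact ⟨0, mem_range.2 hk, by linarith⟩
  · have h2 : binom x k = 0 := by
      unfold binom
      rw [div_eq_zero_iff]
      left
      rw [prod_eq_zero_iff]
      refine ⟨k - 1, mem_range.2 (by omega), ?_⟩
      rw [Nat.cast_sub hk, ← h1]
      push_cast
      ring
    rw [h2]
    exact binom_pos (by linarith)

theorem binom_mono {x y : ℝ} {k : ℕ} (h : (k : ℝ) - 1 ≤ x) (hxy : x ≤ y) :
    binom x k ≤ binom y k := by
  rcases Nat.eq_zero_or_pos k with rfl | hk
  · simp [binom_zero]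
  · rcases hxy.lt_or_eq with h1 | h1
    · exact (binom_strictMono hk h h1).le
    · rw [h1]

theorem binom_self (k : ℕ) : binom k k = 1 := by rw [binom_nat]; simp

theorem continuous_binom (k : ℕ) : Continuous (fun x => binom x k) := by
  unfold binom
  fun_prop

/-- `binom y b * C (b, a) = binom y a * binom (y - a) (b - a)`. -/
theorem binom_mul (y : ℝ) (a : ℕ) : ∀ c : ℕ,
    binom y (a + c) * ((a + c).choose a : ℝ) = binom y a * binom (y - a) c
  | 0 => by simp [binom_zero]
  | c + 1 => by
    have h1 := binom_succ y (a + c)
    have h2 := binom_succ (y - a) c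
    have h3 := binom_mul y a c
    have h4 : ((a + (c + 1)).choose a : ℝ) * (c + 1) = ((a + c).choose a : ℝ) * (a + c + 1) := by
      have h5 := Nat.add_one_mul_choose_eq (a + c) c
      have h6 : (a + (c + 1)).choose a = (a + c + 1).choose (c + 1) := by
        rw [show a + (c + 1) = a + c + 1 by ring, ← Nat.choose_symm (show c + 1 ≤ a + c + 1 by omega)]
        congr 1
        omega
      have h7 : (a + c).choose a = (a + c).choose c := by
        rw [← Nat.choose_symm (show c ≤ a + c by omega)]
        congr 1
        omega
      rw [h6, h7]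
      have h8 : ((a + c + 1).choose (c + 1) : ℝ) * ((c : ℝ) + 1)
          = ((a : ℝ) + c + 1) * ((a + c).choose c : ℝ) := by
        have := h5.symm
        exact_mod_cast this
      linarith
    have h9 : ((c : ℝ) + 1) ≠ 0 := by positivity
    have h10 : ((a : ℝ) + c + 1) ≠ 0 := by positivity
    apply mul_right_cancel₀ h9
    apply mul_right_cancel₀ h10
    push_cast at h1 h2 h4 ⊢
    have e1 : binom y (a + (c + 1)) = binom y (a + c + 1) := rfl
    rw [e1]
    calc binom y (a + c + 1) * ((a + (c + 1)).choose a : ℝ) * ((c : ℝ) + 1) * ((a : ℝ) + c + 1)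
        = (binom y (a + c + 1) * ((a : ℝ) + c + 1)) *
          (((a + (c + 1)).choose a : ℝ) * (c + 1)) := by ring
      _ = (binom y (a + c) * (y - (a + c))) * (((a + c).choose a : ℝ) * (a + c + 1)) := by
          rw [h1, h4]
      _ = (binom y (a + c) * ((a + c).choose a : ℝ)) * ((y - (a + c)) * (a + c + 1)) := by ring
      _ = (binom y a * binom (y - a) c) * ((y - (a + c)) * (a + c + 1)) := by rw [h3]
      _ = binom y a * (binom (y - a) c * (y - a - c)) * (a + c + 1) := by ring
      _ = binom y a * (binom (y - a) (c + 1) * (c + 1)) * (a + c + 1) := by rw [← h2]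
      _ = binom y a * binom (y - a) (c + 1) * ((c : ℝ) + 1) * ((a : ℝ) + c + 1) := by ring

set_option linter.unusedSectionVars false

section KK

variable {V : Type*} [Fintype V] [DecidableEq V]

/-- The complete `(r + 1)`-sets of an `r`-uniform family. -/
def cl (G : Finset (Finset V)) (r t : ℕ) : Finset (Finset V) :=
  univ.filter (fun S => S.card = t ∧ ∀ e ⊆ S, e.card = r → e ∈ G)

theorem mem_cl {G : Finset (Finset V)} {r t : ℕ} {S : Finset V} :
    S ∈ cl G r t ↔ S.card = t ∧ ∀ e ⊆ S, e.card = r → e ∈ G := by simp [cl]

/-- The link of a vertex. -/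
def lk (G : Finset (Finset V)) (v : V) : Finset (Finset V) :=
  (G.filter (fun e => v ∈ e)).image (fun e => e.erase v)

theorem card_lk (G : Finset (Finset V)) (v : V) :
    (lk G v).card = (G.filter (fun e => v ∈ e)).card := by
  apply card_image_of_injOn
  intro a ha b hb hab
  rw [mem_coe, mem_filter] at ha hb
  have h := congrArg (insert v) hab
  simp only at h
  rwa [insert_erase ha.2, insert_erase hb.2] at h

theorem sized_lk {G : Finset (Finset V)} {r : ℕ} (hG : ∀ e ∈ G, e.card = r + 1) (v : V) :
    ∀ e ∈ lk G v, e.card = r := by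
  intro e he
  rw [lk, mem_image] at he
  obtain ⟨f, hf, rfl⟩ := he
  rw [mem_filter] at hf
  rw [card_erase_of_mem hf.2, hG f hf.1]
  rfl

/-- The complete sets at a vertex inject into the complete sets of the link. -/
theorem card_cl_lk {G : Finset (Finset V)} {r : ℕ} (v : V) :
    ((cl G (r + 1) (r + 2)).filter (fun S => v ∈ S)).card ≤ (cl (lk G v) r (r + 1)).card := by
  apply card_le_card_of_injOn (fun S => S.erase v)
  · intro S hS
    rw [mem_coe, mem_filter, mem_cl] at hS
    rw [mem_coe, mem_cl]
    refine ⟨by rw [card_erase_of_mem hS.2, hS.1.1]; rfl, fun e he hc => ?_⟩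
    have hve : v ∉ e := fun h => notMem_erase v S (he h)
    rw [lk, mem_image]
    refine ⟨insert v e, ?_, erase_insert hve⟩
    rw [mem_filter]
    refine ⟨hS.1.2 _ ?_ (by rw [card_insert_of_notMem hve, hc]), mem_insert_self _ _⟩
    intro a ha
    rw [mem_insert] at ha
    rcases ha with rfl | ha
    · exact hS.2
    · exact mem_of_mem_erase (he ha)
  · intro a ha b hb hab
    rw [mem_coe, mem_filter] at ha hb
    have h := congrArg (insert v) hab
    simp only at h
    rwa [insert_erase ha.2, insert_erase hb.2] at h

/-- The complete sets at a vertex inject into the edges that avoid the vertex. -/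
theorem card_cl_avoid {G : Finset (Finset V)} {r : ℕ} (v : V) :
    ((cl G r (r + 1)).filter (fun S => v ∈ S)).card ≤ (G.filter (fun e => v ∉ e)).card := by
  apply card_le_card_of_injOn (fun S => S.erase v)
  · intro S hS
    rw [mem_coe, mem_filter, mem_cl] at hS
    rw [mem_coe, mem_filter]
    exact ⟨hS.1.2 _ (erase_subset _ _) (by rw [card_erase_of_mem hS.2, hS.1.1]; rfl),
      notMem_erase v S⟩
  · intro a ha b hb hab
    rw [mem_coe, mem_filter] at ha hb
    have h := congrArg (insert v) hab
    simp only at h
    rwa [insert_erase ha.2, insert_erase hb.2] at h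

theorem sum_filter_card (G : Finset (Finset V)) :
    ∑ v : V, (G.filter (fun e => v ∈ e)).card = ∑ e ∈ G, e.card := by
  simp_rw [card_filter]
  rw [sum_comm]
  refine sum_congr rfl (fun e _ => ?_)
  simp

/-- Keevash's proof of Lovasz's theorem. -/
theorem kk_step : ∀ (r : ℕ) (G : Finset (Finset V)) (x : ℝ), (∀ e ∈ G, e.card = r + 1) →
    (r : ℝ) + 1 ≤ x → (G.card : ℝ) ≤ binom x (r + 1) →
    ((cl G (r + 1) (r + 2)).card : ℝ) ≤ binom x (r + 2) := by
  intro r
  induction r with
  | zero =>
    intro G x hG hx hc
    -- each vertex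
    have key : ∀ v : V, (((cl G 1 2).filter (fun S => v ∈ S)).card : ℝ) ≤
        (x - 1) * ((G.filter (fun e => v ∈ e)).card : ℝ) := by
      intro v
      rcases Nat.eq_zero_or_pos (G.filter (fun e => v ∈ e)).card with h0 | h0
      · have h1 : ((cl G 1 2).filter (fun S => v ∈ S)).card = 0 := by
          rw [card_eq_zero, eq_empty_iff_forall_notMem]
          intro S hS
          rw [mem_filter, mem_cl] at hS
          have h2 : ({v} : Finset V) ∈ G := hS.1.2 _ (singleton_subset_iff.2 hS.2) (card_singleton v)
          rw [card_eq_zero, eq_empty_iff_forall_notMem] at h0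
          exact h0 {v} (mem_filter.2 ⟨h2, mem_singleton_self v⟩)
        rw [h1, h0]
        simp
      · have h1 := card_cl_avoid (G := G) (r := 1) v
        have h2 : (G.filter (fun e => v ∈ e)).card + (G.filter (fun e => v ∉ e)).card = G.card :=
          card_filter_add_card_filter_not _
        have h3 : (((cl G 1 2).filter (fun S => v ∈ S)).card : ℝ) ≤
            ((G.filter (fun e => v ∉ e)).card : ℝ) := by exact_mod_cast h1
        have h4 : ((G.filter (fun e => v ∈ e)).card : ℝ) + ((G.filter (fun e => v ∉ e)).card : ℝ)
            = G.card := by exact_mod_cast h2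
        have h5 : (1 : ℝ) ≤ ((G.filter (fun e => v ∈ e)).card : ℝ) := by exact_mod_cast h0
        have h6 : binom x 1 = x := by simp [binom]
        simp only [zero_add] at hc
        rw [h6] at hc
        have h7 : (0 : ℝ) ≤ x - 1 := by
          simp only [Nat.cast_zero, zero_add] at hx
          linarith
        nlinarith
    have h1 : ∑ v : V, (((cl G 1 2).filter (fun S => v ∈ S)).card : ℝ) = 2 * (cl G 1 2).card := by
      have h2 := sum_filter_card (cl G 1 2)
      have h3 : ∑ e ∈ cl G 1 2, e.card = ∑ e ∈ cl G 1 2, 2 :=
        sum_congr rfl (fun e he => (mem_cl.1 he).1)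
      rw [h3, sum_const, smul_eq_mul] at h2
      rw [← Nat.cast_sum, h2]
      push_cast
      ring
    have h2 : ∑ v : V, ((G.filter (fun e => v ∈ e)).card : ℝ) = G.card := by
      have h2 := sum_filter_card G
      have h3 : ∑ e ∈ G, e.card = ∑ e ∈ G, 1 := sum_congr rfl (fun e he => hG e he)
      rw [h3, sum_const, smul_eq_mul, mul_one] at h2
      exact_mod_cast h2
    have h3 := sum_le_sum (fun v (_ : v ∈ (univ : Finset V)) => key v)
    rw [h1, ← mul_sum, h2] at h3
    have h6 : binom x 1 = x := by simp [binom]
    have h7 := binom_succ x 1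
    rw [h6] at h7
    simp only [zero_add] at hc ⊢
    rw [h6] at hc
    have h8 : (0 : ℝ) ≤ x - 1 := by
      simp only [Nat.cast_zero, zero_add] at hx
      linarith
    have h9 : (x - 1) * (G.card : ℝ) ≤ (x - 1) * x := mul_le_mul_of_nonneg_left hc h8
    norm_num at h7 ⊢
    nlinarith
  | succ r ih =>
    intro G x hG hx hc
    push_cast at hx
    set R : ℝ := (r : ℝ) + 2 with hR
    have hR0 : 0 < R := by positivity
    have hx0 : 0 ≤ x - R := by linarith
    have key : ∀ v : V, (((cl G (r + 2) (r + 3)).filter (fun S => v ∈ S)).card : ℝ) ≤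
        (x - R) / R * ((G.filter (fun e => v ∈ e)).card : ℝ) := by
      intro v
      have hb := binom_succ (x - 1) (r + 1)
      have hb2 : binom x (r + 2) * R = x * binom (x - 1) (r + 1) := by
        have h := binom_mul x 1 (r + 1)
        have h1 : binom x 1 = x := by simp [binom]
        rw [h1, show 1 + (r + 1) = r + 2 by ring] at h
        simp only [Nat.choose_one_right, Nat.cast_one] at h
        push_cast at h
        rw [← h]
      rcases le_or_gt (binom (x - 1) (r + 1)) ((G.filter (fun e => v ∈ e)).card : ℝ) with h1 | h1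
      · -- many edges at `v`
        have h2 := card_cl_avoid (G := G) (r := r + 2) v
        have h3 : (G.filter (fun e => v ∈ e)).card + (G.filter (fun e => v ∉ e)).card = G.card :=
          card_filter_add_card_filter_not _
        have h4 : (((cl G (r + 2) (r + 3)).filter (fun S => v ∈ S)).card : ℝ) ≤
            ((G.filter (fun e => v ∉ e)).card : ℝ) := by exact_mod_cast h2
        have h5 : ((G.filter (fun e => v ∈ e)).card : ℝ) + ((G.filter (fun e => v ∉ e)).card : ℝ)
            = G.card := by exact_mod_cast h3
        have h6 : (G.card : ℝ) ≤ x / R * ((G.filter (fun e => v ∈ e)).card : ℝ) := by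
          have h7 : binom x (r + 2) = x / R * binom (x - 1) (r + 1) := by
            field_simp
            linarith
          rw [show r + 1 + 1 = r + 2 by ring, h7] at hc
          refine hc.trans (mul_le_mul_of_nonneg_left h1 (by apply div_nonneg <;> linarith))
        have h8 : (x - R) / R = x / R - 1 := by field_simp
        rw [h8]
        linarith
      · -- few edges at `v`
        rcases Nat.eq_zero_or_pos (G.filter (fun e => v ∈ e)).card with h0 | h0
        · have h2 : ((cl G (r + 2) (r + 3)).filter (fun S => v ∈ S)).card = 0 := by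
            rw [card_eq_zero, eq_empty_iff_forall_notMem]
            intro S hS
            rw [mem_filter, mem_cl] at hS
            -- a subset of `S` of size `r + 2` that contains `v`
            obtain ⟨e, he1, he2, he3⟩ : ∃ e, {v} ⊆ e ∧ e ⊆ S ∧ e.card = r + 2 := by
              have := exists_subsuperset_card_eq (singleton_subset_iff.2 hS.2)
                (show ({v} : Finset V).card ≤ r + 2 by rw [card_singleton]; omega)
                (show r + 2 ≤ S.card by rw [hS.1.1]; omega)
              obtain ⟨e, h1, h2, h3⟩ := this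
              exact ⟨e, h1, h2, h3⟩
            rw [card_eq_zero, eq_empty_iff_forall_notMem] at h0
            exact h0 e (mem_filter.2 ⟨hS.1.2 e he2 he3, he1 (mem_singleton_self v)⟩)
          rw [h2, h0]
          simp
        · -- intermediate value theorem
          have h5 : (1 : ℝ) ≤ ((G.filter (fun e => v ∈ e)).card : ℝ) := by exact_mod_cast h0
          have h6 : ((r : ℝ) + 1) ≤ x - 1 := by linarith
          obtain ⟨y, hy, hy2⟩ : ∃ y ∈ Set.Icc ((r : ℝ) + 1) (x - 1),
              binom y (r + 1) = ((G.filter (fun e => v ∈ e)).card : ℝ) := by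
            apply intermediate_value_Icc h6 ((continuous_binom (r + 1)).continuousOn)
            constructor
            · have h7 : binom ((r : ℝ) + 1) (r + 1) = 1 := by
                have := binom_self (r + 1)
                push_cast at this
                exact this
              rw [h7]
              exact h5
            · exact h1.le
          have h7 := ih (lk G v) y (sized_lk hG v) hy.1 (by rw [card_lk, hy2])
          have h8 := card_cl_lk (G := G) (r := r + 1) v
          have h9 : (((cl G (r + 2) (r + 3)).filter (fun S => v ∈ S)).card : ℝ) ≤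
              ((cl (lk G v) (r + 1) (r + 2)).card : ℝ) := by exact_mod_cast h8
          have h10 := binom_succ y (r + 1)
          rw [hy2] at h10
          push_cast at h10
          have h11 : binom y (r + 2) = (y - (r + 1)) / R *
              ((G.filter (fun e => v ∈ e)).card : ℝ) := by
            have : binom y (r + 1 + 1) = binom y (r + 2) := rfl
            rw [this] at h10
            field_simp
            rw [hR]
            linarith
          rw [h11] at h7
          refine (h9.trans h7).trans ?_
          apply mul_le_mul_of_nonneg_right _ (by positivity)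
          apply div_le_div_of_nonneg_right _ hR0.le
          have := hy.2
          linarith
    have h1 : ∑ v : V, (((cl G (r + 2) (r + 3)).filter (fun S => v ∈ S)).card : ℝ)
        = (R + 1) * (cl G (r + 2) (r + 3)).card := by
      have h2 := sum_filter_card (cl G (r + 2) (r + 3))
      have h3 : ∑ e ∈ cl G (r + 2) (r + 3), e.card = ∑ e ∈ cl G (r + 2) (r + 3), (r + 3) :=
        sum_congr rfl (fun e he => (mem_cl.1 he).1)
      rw [h3, sum_const, smul_eq_mul] at h2
      rw [← Nat.cast_sum, h2]
      push_cast
      ring
    have h2 : ∑ v : V, ((G.filter (fun e => v ∈ e)).card : ℝ) = R * G.card := by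
      have h2 := sum_filter_card G
      have h3 : ∑ e ∈ G, e.card = ∑ e ∈ G, (r + 2) := sum_congr rfl (fun e he => hG e he)
      rw [h3, sum_const, smul_eq_mul] at h2
      rw [← Nat.cast_sum, h2]
      push_cast
      ring
    have h3 := sum_le_sum (fun v (_ : v ∈ (univ : Finset V)) => key v)
    rw [h1, ← mul_sum, h2] at h3
    have h4 : (x - R) / R * (R * (G.card : ℝ)) = (x - R) * G.card := by
      field_simp
    rw [h4] at h3
    have h5 := binom_succ x (r + 2)
    push_cast at h5
    have h6 : (x - R) * (G.card : ℝ) ≤ (x - R) * binom x (r + 2) :=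
      mul_le_mul_of_nonneg_left hc hx0
    have h7 : (R + 1) * ((cl G (r + 2) (r + 3)).card : ℝ) ≤ (R + 1) * binom x (r + 3) := by
      have : binom x (r + 2 + 1) = binom x (r + 3) := rfl
      rw [this] at h5
      have e1 : (R + 1) * binom x (r + 3) = (x - R) * binom x (r + 2) := by
        rw [hR]
        linarith
      rw [e1]
      linarith
    exact le_of_mul_le_mul_left h7 (by positivity)

/-- The clique version of Lovasz's theorem: at most `binom x t` complete `t`-sets. -/
theorem kk (r : ℕ) (G : Finset (Finset V)) (x : ℝ) (hG : ∀ e ∈ G, e.card = r + 1)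
    (hc : (G.card : ℝ) ≤ binom x (r + 1)) : ∀ s : ℕ, ((r + 1 + s : ℕ) : ℝ) ≤ x →
    ((cl G (r + 1) (r + 1 + s)).card : ℝ) ≤ binom x (r + 1 + s)
  | 0 => by
    intro _
    refine le_trans ?_ hc
    have : cl G (r + 1) (r + 1 + 0) ⊆ G := by
      intro S hS
      rw [mem_cl] at hS
      exact hS.2 S (Subset.refl _) hS.1
    exact_mod_cast card_le_card this
  | s + 1 => by
    intro hx
    push_cast at hx
    have h1 := kk r G x hG hc s (by push_cast; linarith)
    have h2 : cl G (r + 1) (r + 1 + (s + 1)) ⊆ cl (cl G (r + 1) (r + 1 + s)) (r + s + 1) (r + s + 2) := by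
      intro S hS
      rw [mem_cl] at hS ⊢
      refine ⟨by rw [hS.1]; ring, fun e he hec => ?_⟩
      rw [mem_cl]
      refine ⟨by rw [hec]; ring, fun f hf hfc => hS.2 f (hf.trans he) hfc⟩
    have h3 := kk_step (r + s) (cl G (r + 1) (r + 1 + s)) x
      (fun e he => by rw [(mem_cl.1 he).1]; ring) (by push_cast; linarith)
      (by rw [show r + s + 1 = r + 1 + s by ring]; exact h1)
    rw [show r + 1 + (s + 1) = r + s + 2 by ring] at h2 ⊢
    refine le_trans ?_ h3
    exact_mod_cast card_le_card h2

end KK

end Pool.Agent.R879
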