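import Pool.Agent.R879.FrobP

/-!
# Möbius-type functions on the poset of small `p`-subgroups
-/

set_option autoImplicit false

namespace Pool.Agent.R879.PPoset

open Finset Pool.Agent.R879.FrobP

section Poset

variable {α : Type*} [PartialOrder α]

open Classical in
/-- `μ` sums to `1` over each up-set of `X` with a least element. -/
def IsUp (X : Finset α) (μ : α → ℤ) : Prop := ∀ W ∈ X, ∑ V ∈ X with W ≤ V, μ V = 1

open Classical in
def IsDown (X : Finset α) (μ : α → ℤ) : Prop := ∀ W ∈ X, ∑ V ∈ X with V ≤ W, μ V = 1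

lemma exists_isUp (X : Finset α) : ∃ μ : α → ℤ, IsUp X μ := by
  classical
  induction hn : X.card using Nat.strong_induction_on generalizing X with
  | _ n ih =>
  rcases X.eq_empty_or_nonempty with rfl | hne
  · exact ⟨0, fun W hW => by simp at hW⟩
  · obtain ⟨M, hM⟩ := X.exists_minimal hne
    have hMX : M ∈ X := hM.1
    obtain ⟨μ, hμ⟩ := ih (X.erase M).card (by rw [← hn]; exact Finset.card_erase_lt_of_mem hMX)
      (X.erase M) rfl
    refine ⟨fun V => if V = M then 1 - ∑ V ∈ X.erase M with M ≤ V, μ V else μ V, ?_⟩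
    intro W hW
    by_cases hWM : W = M
    · subst hWM
      have h1 : X.filter (fun V => W ≤ V) = insert W ((X.erase W).filter (fun V => W ≤ V)) := by
        ext V
        simp only [mem_filter, mem_insert, mem_erase]
        constructor
        · rintro ⟨h1, h2⟩
          by_cases h : V = W
          · exact Or.inl h
          · exact Or.inr ⟨⟨h, h1⟩, h2⟩
        · rintro (rfl | ⟨⟨_, h1⟩, h2⟩)
          · exact ⟨hW, le_rfl⟩
          · exact ⟨h1, h2⟩
      rw [h1, Finset.sum_insert (by simp)]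
      rw [if_pos rfl]
      have h2 : ∑ V ∈ (X.erase W).filter (fun V => W ≤ V),
          (if V = W then 1 - ∑ V ∈ X.erase W with W ≤ V, μ V else μ V) =
          ∑ V ∈ (X.erase W).filter (fun V => W ≤ V), μ V := by
        refine Finset.sum_congr rfl fun V hV => ?_
        rw [if_neg]
        rintro rfl
        simp at hV
      rw [h2]
      ring
    · have hW' : W ∈ X.erase M := mem_erase.mpr ⟨hWM, hW⟩
      refine Eq.trans ?_ (hμ W hW')
      have h1 : X.filter (fun V => W ≤ V) = (X.erase M).filter (fun V => W ≤ V) := by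
        ext V
        simp only [mem_filter, mem_erase]
        constructor
        · rintro ⟨h1, h2⟩
          refine ⟨⟨?_, h1⟩, h2⟩
          rintro rfl
          exact hWM (le_antisymm h2 (hM.2 hW h2))
        · rintro ⟨⟨_, h1⟩, h2⟩
          exact ⟨h1, h2⟩
      rw [h1]
      refine Finset.sum_congr rfl fun V hV => ?_
      have hVM : V ≠ M := by
        rintro rfl
        simp at hV
      simp only [if_neg hVM]

lemma exists_isDown (X : Finset α) : ∃ μ : α → ℤ, IsDown X μ := by
  classical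
  obtain ⟨μ, hμ⟩ := exists_isUp (α := αᵒᵈ) (X.map OrderDual.toDual.toEmbedding)
  refine ⟨fun V => μ (OrderDual.toDual V), fun W hW => ?_⟩
  have := hμ (OrderDual.toDual W) (by simpa using hW)
  rw [← this]
  refine Finset.sum_bij (fun V _ => OrderDual.toDual V) ?_ ?_ ?_ ?_
  · intro V hV
    simp only [mem_filter] at hV ⊢
    refine ⟨by simpa using hV.1, ?_⟩
    exact hV.2
  · intro a _ b _ h
    exact OrderDual.toDual.injective h
  · intro b hb
    simp only [mem_filter] at hb
    refine ⟨OrderDual.ofDual b, ?_, rfl⟩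
    simp only [mem_filter]
    refine ⟨by simpa using hb.1, hb.2⟩
  · intro a _; rfl

lemma IsUp.unique {X : Finset α} {μ μ' : α → ℤ} (h : IsUp X μ) (h' : IsUp X μ') :
    ∀ W ∈ X, μ W = μ' W := by
  classical
  intro W
  induction hn : (X.filter (fun V => W < V)).card using Nat.strong_induction_on
    generalizing W with
  | _ n ih =>
  intro hW
  have key : ∀ ν : α → ℤ, IsUp X ν → ν W + ∑ V ∈ X with W < V, ν V = 1 := by
    intro ν hν
    rw [← hν W hW]
    have h1 : X.filter (fun V => W ≤ V) = insert W (X.filter (fun V => W < V)) := by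
      ext V
      simp only [mem_filter, mem_insert]
      constructor
      · rintro ⟨h1, h2⟩
        rcases h2.eq_or_lt with h | h
        · exact Or.inl h.symm
        · exact Or.inr ⟨h1, h⟩
      · rintro (rfl | ⟨h1, h2⟩)
        · exact ⟨hW, le_rfl⟩
        · exact ⟨h1, h2.le⟩
    rw [h1, Finset.sum_insert (by simp)]
  have h1 := key μ h
  have h2 := key μ' h'
  have h3 : ∑ V ∈ X with W < V, μ V = ∑ V ∈ X with W < V, μ' V := by
    refine Finset.sum_congr rfl fun V hV => ?_
    obtain ⟨hVX, hWV⟩ := mem_filter.mp hV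
    refine ih _ ?_ V rfl hVX
    rw [← hn]
    apply Finset.card_lt_card
    refine ⟨fun Z hZ => ?_, fun hsub => ?_⟩
    · rw [mem_filter] at hZ ⊢
      exact ⟨hZ.1, hWV.trans hZ.2⟩
    · have := hsub (mem_filter.mpr ⟨hVX, hWV⟩)
      exact lt_irrefl _ (mem_filter.mp this).2
  rw [h3] at h1
  linarith

lemma IsUp.filter_lt {X : Finset α} {μ : α → ℤ} (h : IsUp X μ) (U : α) [DecidablePred (U < ·)] :
    IsUp (X.filter (U < ·)) μ := by
  classical
  intro W hW
  obtain ⟨hWX, hUW⟩ := mem_filter.mp hW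
  rw [← h W hWX, filter_filter]
  refine Finset.sum_congr ?_ fun _ _ => rfl
  ext V
  simp only [mem_filter]
  constructor
  · rintro ⟨h1, _, h2⟩; exact ⟨h1, h2⟩
  · rintro ⟨h1, h2⟩; exact ⟨h1, hUW.trans_le h2, h2⟩

/-- A poset and a subposet onto which it retracts downwards have the same total mass. -/
lemma sum_eq_of_retract {X Y : Finset α} (hYX : Y ⊆ X) (r : α → α)
    (hr : ∀ V ∈ X, r V ∈ Y ∧ ∀ W ∈ Y, W ≤ V ↔ W ≤ r V) {μX μY : α → ℤ} (hX : IsUp X μX)
    (hY : IsUp Y μY) : ∑ V ∈ X, μX V = ∑ W ∈ Y, μY W := by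
  classical
  obtain ⟨ν, hν⟩ := exists_isDown Y
  have key : ∀ (Z : Finset α) (μ : α → ℤ), Y ⊆ Z → (∀ V ∈ Z, ∑ W ∈ Y with W ≤ V, ν W = 1) →
      IsUp Z μ → ∑ V ∈ Z, μ V = ∑ W ∈ Y, ν W := by
    intro Z μ hYZ h1 hZ
    have h2 : ∑ V ∈ Z, μ V = ∑ V ∈ Z, ∑ W ∈ Y, if W ≤ V then μ V * ν W else 0 := by
      refine Finset.sum_congr rfl fun V hV => ?_
      rw [← Finset.sum_filter, ← Finset.mul_sum, h1 V hV, mul_one]
    rw [h2, Finset.sum_comm]
    refine Finset.sum_congr rfl fun W hW => ?_
    rw [← Finset.sum_filter, ← Finset.sum_mul, hZ W (hYZ hW), one_mul]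
  rw [key X μX hYX _ hX, key Y μY subset_rfl _ hY]
  · intro V hV
    exact hν V hV
  · intro V hV
    obtain ⟨h1, h2⟩ := hr V hV
    rw [← hν (r V) h1]
    refine Finset.sum_congr ?_ fun _ _ => rfl
    ext W
    simp only [mem_filter]
    constructor
    · rintro ⟨h3, h4⟩; exact ⟨h3, (h2 W h3).mp h4⟩
    · rintro ⟨h3, h4⟩; exact ⟨h3, (h2 W h3).mpr h4⟩

end Poset

section Group

open Subgroup Pointwise

variable {G : Type} [Group G] [Finite G]

/-- The subgroups of `H` whose order divides `p ^ k`. -/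
noncomputable def pk (p k : ℕ) (H : Subgroup G) : Finset (Subgroup G) :=
  (Set.toFinite {V : Subgroup G | V ≤ H ∧ Nat.card V ∣ p ^ k}).toFinset

lemma mem_pk {p k : ℕ} {H V : Subgroup G} : V ∈ pk p k H ↔ V ≤ H ∧ Nat.card V ∣ p ^ k := by
  simp [pk]

/-- The function on `p`-subgroups of order at most `p ^ k` that sums to `1` above each of them. -/
noncomputable def mob (p k : ℕ) (H : Subgroup G) : Subgroup G → ℤ :=
  (exists_isUp (pk p k H)).choose

lemma mob_isUp (p k : ℕ) (H : Subgroup G) : IsUp (pk p k H) (mob p k H) :=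
  (exists_isUp (pk p k H)).choose_spec

lemma card_smul (g : ConjAct G) (V : Subgroup G) : Nat.card (g • V : Subgroup G) = Nat.card V :=
  (Nat.card_congr (Subgroup.equivSMul g V).toEquiv).symm

lemma smul_eq_of_mem {H : Subgroup G} {g : ConjAct G} (hg : ConjAct.ofConjAct g ∈ normalizer H) :
    g • H = H := by
  have := conjAct_pointwise_smul_eq_self hg
  simpa using this

lemma mem_pk_smul {p k : ℕ} {H V : Subgroup G} (g : ConjAct G) :
    g • V ∈ pk p k (g • H) ↔ V ∈ pk p k H := by
  rw [mem_pk, mem_pk, card_smul, Subgroup.pointwise_smul_le_pointwise_smul_iff]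

lemma mob_smul {p k : ℕ} {H V : Subgroup G} (g : ConjAct G) (hV : V ∈ pk p k H) :
    mob p k (g • H) (g • V) = mob p k H V := by
  classical
  have h1 : IsUp (pk p k H) (fun V => mob p k (g • H) (g • V)) := by
    intro W hW
    rw [← mob_isUp p k (g • H) (g • W) ((mem_pk_smul g).mpr hW)]
    refine Finset.sum_bij (fun V _ => g • V) ?_ ?_ ?_ ?_
    · intro V hV
      rw [mem_filter] at hV ⊢
      exact ⟨(mem_pk_smul g).mpr hV.1, Subgroup.pointwise_smul_le_pointwise_smul_iff.mpr hV.2⟩
    · intro a _ b _ h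
      exact MulAction.injective g h
    · intro b hb
      rw [mem_filter] at hb
      refine ⟨g⁻¹ • b, ?_, by simp⟩
      rw [mem_filter]
      have hb1 : g • (g⁻¹ • b) ∈ pk p k (g • H) := by simpa using hb.1
      refine ⟨(mem_pk_smul g).mp hb1, ?_⟩
      have hb2 : g • W ≤ g • (g⁻¹ • b) := by simpa using hb.2
      exact Subgroup.pointwise_smul_le_pointwise_smul_iff.mp hb2
    · intro a _; rfl
  exact h1.unique (mob_isUp p k H) V hV

/-- In a finite `p`-group, a proper subgroup is properly contained in its normalizer. -/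
lemma lt_inf_normalizer {p : ℕ} (hp : p.Prime) {k : ℕ} {U V : Subgroup G} (hUV : U < V)
    (hV : Nat.card V ∣ p ^ k) : U < V ⊓ normalizer U := by
  have : Fact p.Prime := ⟨hp⟩
  have hpV : IsPGroup p V := by
    obtain ⟨i, _, hi⟩ := (Nat.dvd_prime_pow hp).mp hV
    exact IsPGroup.of_card hi
  have hnil : Group.IsNilpotent V := hpV.isNilpotent
  have hnc := (Group.normalizerCondition_of_isNilpotent (G := V)) (U.subgroupOf V) ?_
  · rw [← subgroupOf_normalizer_eq hUV.le] at hnc
    obtain ⟨_, x, hx1, hx2⟩ := SetLike.lt_iff_le_and_exists.mp hnc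
    refine SetLike.lt_iff_le_and_exists.mpr ⟨le_inf hUV.le le_normalizer, x.1, ?_, ?_⟩
    · exact ⟨x.2, hx1⟩
    · exact hx2
  · rw [lt_top_iff_ne_top]
    intro h
    rw [subgroupOf_eq_top] at h
    exact lt_irrefl _ (hUV.trans_le h)

lemma mob_eq_normalizer {p : ℕ} (hp : p.Prime) {k : ℕ} {H U : Subgroup G}
    (hU : U ∈ pk p k H) : mob p k H U = mob p k (H ⊓ normalizer U) U := by
  classical
  set N := H ⊓ normalizer U with hN
  have hUN : U ∈ pk p k N := by
    rw [mem_pk] at hU ⊢
    exact ⟨le_inf hU.1 le_normalizer, hU.2⟩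
  have hsplit : ∀ K : Subgroup G, U ∈ pk p k K →
      mob p k K U + ∑ V ∈ (pk p k K).filter (U < ·), mob p k K V = 1 := by
    intro K hK
    rw [← mob_isUp p k K U hK]
    have h1 : (pk p k K).filter (fun V => U ≤ V) =
        insert U ((pk p k K).filter (fun V => U < V)) := by
      ext V
      simp only [mem_filter, mem_insert]
      constructor
      · rintro ⟨h1, h2⟩
        rcases h2.eq_or_lt with h | h
        · exact Or.inl h.symm
        · exact Or.inr ⟨h1, h⟩
      · rintro (rfl | ⟨h1, h2⟩)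
        · exact ⟨hK, le_rfl⟩
        · exact ⟨h1, h2.le⟩
    rw [h1, Finset.sum_insert (by simp)]
  have h1 := hsplit H hU
  have h2 := hsplit N hUN
  have h3 : ∑ V ∈ (pk p k H).filter (U < ·), mob p k H V =
      ∑ V ∈ (pk p k N).filter (U < ·), mob p k N V := by
    apply sum_eq_of_retract _ (fun V => V ⊓ N) _ ((mob_isUp p k H).filter_lt U)
      ((mob_isUp p k N).filter_lt U)
    · intro V hV
      rw [mem_filter, mem_pk] at hV ⊢
      exact ⟨⟨hV.1.1.trans inf_le_left, hV.1.2⟩, hV.2⟩
    · intro V hV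
      rw [mem_filter, mem_pk] at hV
      obtain ⟨⟨hVH, hVc⟩, hUV⟩ := hV
      constructor
      · rw [mem_filter, mem_pk]
        refine ⟨⟨inf_le_right, (Subgroup.card_dvd_of_le inf_le_left).trans hVc⟩, ?_⟩
        have := lt_inf_normalizer hp hUV hVc
        have h4 : V ⊓ N = V ⊓ normalizer U := by
          rw [hN, ← inf_assoc, inf_eq_left.mpr hVH]
        rw [h4]; exact this
      · intro W hW
        rw [mem_filter, mem_pk] at hW
        exact ⟨fun h => le_inf h hW.1.1, fun h => h.trans inf_le_left⟩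
  rw [h3] at h1
  linarith

/-- `H` as a group acting on the subgroups of `G` by conjugation. -/
def HC (H : Subgroup G) : Subgroup (ConjAct G) := H.comap ConjAct.ofConjAct.toMonoidHom

lemma card_orbit (H V : Subgroup G) :
    Nat.card (MulAction.orbit (HC H) V) * Nat.card (H ⊓ normalizer V : Subgroup G) =
      Nat.card H := by
  have h1 := Nat.card_congr (MulAction.orbitProdStabilizerEquivGroup (HC H) V)
  rw [Nat.card_prod] at h1
  have h2 : Nat.card (HC H) = Nat.card H :=
    Nat.card_congr ⟨fun g => ⟨ConjAct.ofConjAct g.1, g.2⟩, fun g => ⟨ConjAct.toConjAct g.1, g.2⟩,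
      fun g => rfl, fun g => rfl⟩
  have h3 : Nat.card (MulAction.stabilizer (HC H) V) =
      Nat.card (H ⊓ normalizer V : Subgroup G) := by
    refine Nat.card_congr ⟨fun g => ⟨ConjAct.ofConjAct g.1.1, ⟨g.1.2, ?_⟩⟩,
      fun g => ⟨⟨ConjAct.toConjAct g.1, g.2.1⟩, ?_⟩, fun g => rfl, fun g => rfl⟩
    · have := g.2
      rw [MulAction.mem_stabilizer_iff] at this
      exact conjAct_pointwise_smul_iff.mp this
    · rw [MulAction.mem_stabilizer_iff]
      exact conjAct_pointwise_smul_iff.mpr g.2.2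
  rw [h2, h3] at h1
  exact h1

/-- The elements of `H` lying in some small `p`-subgroup above the normal `p`-subgroup `U`. -/
lemma exists_mem_iff {p : ℕ} (hp : p.Prime) {u j : ℕ} {H U : Subgroup G} (hUH : U ≤ H)
    (hUc : Nat.card U = p ^ u) (hn : H ≤ normalizer U) (x : G) :
    (∃ V ∈ pk p (u + j) H, U ≤ V ∧ x ∈ V) ↔ x ∈ H ∧ x ^ (p ^ j) ∈ U := by
  constructor
  · rintro ⟨V, hV, hUV, hxV⟩
    rw [mem_pk] at hV
    refine ⟨hV.1 hxV, ?_⟩
    have hnor : (U.subgroupOf V).Normal :=
      (normal_subgroupOf_iff_le_normalizer hUV).mpr (hV.1.trans hn)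
    have h1 := (U.subgroupOf V).pow_index_mem (⟨x, hxV⟩ : V)
    have h2 : (U.subgroupOf V).index ∣ p ^ j := by
      have h3 := (U.subgroupOf V).index_mul_card
      have h4 : Nat.card (U.subgroupOf V) = p ^ u := by
        rw [Nat.card_congr (subgroupOfEquivOfLe hUV).toEquiv, hUc]
      rw [h4] at h3
      have h5 := hV.2
      rw [← h3, pow_add, mul_comm (p ^ u)] at h5
      exact Nat.dvd_of_mul_dvd_mul_right (pow_pos hp.pos u) h5
    obtain ⟨c, hc⟩ := h2
    have h6 : x ^ (p ^ j) = (((⟨x, hxV⟩ : V) ^ (U.subgroupOf V).index) ^ c : V) := by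
      rw [hc, pow_mul]; rfl
    rw [h6]
    exact (U.subgroupOf V).pow_mem h1 c
  · rintro ⟨hxH, hx⟩
    have hnor : (U.subgroupOf H).Normal := (normal_subgroupOf_iff_le_normalizer hUH).mpr hn
    let y : H ⧸ U.subgroupOf H := QuotientGroup.mk (⟨x, hxH⟩ : H)
    have hy : y ^ (p ^ j) = 1 := by
      have : y ^ (p ^ j) = QuotientGroup.mk ((⟨x, hxH⟩ : H) ^ (p ^ j)) := rfl
      rw [this, QuotientGroup.eq_one_iff]
      exact hx
    have hyc : Nat.card (zpowers y) ∣ p ^ j := by
      rw [Nat.card_zpowers]; exact orderOf_dvd_of_pow_eq_one hy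
    let W' : Subgroup H := (zpowers y).comap (QuotientGroup.mk' (U.subgroupOf H))
    have hW'c : Nat.card W' ∣ p ^ (u + j) := by
      have h1 : Nat.card W' = Nat.card (U.subgroupOf H) * Nat.card (zpowers y) := by
        have := QuotientGroup.card_preimage_mk (U.subgroupOf H) (zpowers y : Set _)
        exact this
      rw [h1, Nat.card_congr (subgroupOfEquivOfLe hUH).toEquiv, hUc, pow_add]
      exact mul_dvd_mul_left _ hyc
    refine ⟨W'.map H.subtype, ?_, ?_, ?_⟩
    · rw [mem_pk]
      refine ⟨map_subtype_le W', ?_⟩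
      rw [Nat.card_congr (W'.equivMapOfInjective H.subtype H.subtype_injective).toEquiv.symm]
      exact hW'c
    · intro z hz
      refine ⟨⟨z, hUH hz⟩, ?_, rfl⟩
      change QuotientGroup.mk' (U.subgroupOf H) ⟨z, hUH hz⟩ ∈ zpowers y
      have : QuotientGroup.mk' (U.subgroupOf H) ⟨z, hUH hz⟩ = 1 := by
        rw [QuotientGroup.mk'_apply, QuotientGroup.eq_one_iff]
        exact hz
      rw [this]; exact one_mem _
    · exact ⟨⟨x, hxH⟩, mem_zpowers y, rfl⟩

lemma sum_mob_card {p : ℕ} (hp : p.Prime) {u j : ℕ} {H U : Subgroup G} (hUH : U ≤ H)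
    (hUc : Nat.card U = p ^ u) (hn : H ≤ normalizer U) [DecidablePred (U ≤ ·)] :
    ∑ V ∈ (pk p (u + j) H).filter (U ≤ ·), mob p (u + j) H V * (Nat.card V : ℤ) =
      (Nat.card {x : G // x ∈ H ∧ x ^ (p ^ j) ∈ U} : ℤ) := by
  classical
  have := Fintype.ofFinite G
  have h1 : ∀ V : Subgroup G, (Nat.card V : ℤ) = ∑ x : G, if x ∈ V then (1 : ℤ) else 0 := by
    intro V
    rw [Finset.sum_boole, Nat.card_eq_fintype_card, Fintype.card_subtype]
  simp_rw [h1, Finset.mul_sum]
  rw [Finset.sum_comm, Nat.card_eq_fintype_card, Fintype.card_subtype, ← Finset.sum_boole]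
  refine Finset.sum_congr rfl fun x _ => ?_
  simp only [mul_ite, mul_one, mul_zero]
  rw [← Finset.sum_filter, filter_filter]
  split_ifs with hx
  · obtain ⟨V, hV, hUV, hxV⟩ := (exists_mem_iff hp hUH hUc hn x).mpr hx
    have hW : zpowers x ⊔ U ≤ V := sup_le (zpowers_le.mpr hxV) hUV
    have hWm : zpowers x ⊔ U ∈ pk p (u + j) H := by
      rw [mem_pk] at hV ⊢
      exact ⟨hW.trans hV.1, (Subgroup.card_dvd_of_le hW).trans hV.2⟩
    rw [← mob_isUp p (u + j) H _ hWm]
    refine Finset.sum_congr ?_ fun _ _ => rfl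
    ext Z
    simp only [mem_filter, sup_le_iff, zpowers_le]
    tauto
  · apply Finset.sum_eq_zero
    intro V hV
    rw [mem_filter] at hV
    exact absurd ((exists_mem_iff hp hUH hUc hn x).mp ⟨V, hV.1, hV.2.1, hV.2.2⟩) hx

lemma dvd_count {p : ℕ} (hp : p.Prime) {u j : ℕ} {H U : Subgroup G} (hUH : U ≤ H)
    (hUc : Nat.card U = p ^ u) (hn : H ≤ normalizer U) :
    p ^ (min (u + j) ((Nat.card H).factorization p)) ∣
      Nat.card {x : G // x ∈ H ∧ x ^ (p ^ j) ∈ U} := by
  have hnor : (U.subgroupOf H).Normal := (normal_subgroupOf_iff_le_normalizer hUH).mpr hn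
  have h1 := frobenius_prime_pow p hp (H ⧸ U.subgroupOf H) j
  have h2 : Nat.card (H ⧸ U.subgroupOf H) * p ^ u = Nat.card H := by
    have := (U.subgroupOf H).card_eq_card_quotient_mul_card_subgroup
    rw [this, Nat.card_congr (subgroupOfEquivOfLe hUH).toEquiv, hUc]
  have hQ : Nat.card (H ⧸ U.subgroupOf H) ≠ 0 := Nat.card_pos.ne'
  have h3 : (Nat.card H).factorization p =
      (Nat.card (H ⧸ U.subgroupOf H)).factorization p + u := by
    rw [← h2, Nat.factorization_mul hQ (pow_pos hp.pos u).ne', Finsupp.add_apply,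
      hp.factorization_pow]
    simp
  have h4 : Nat.card {x : G // x ∈ H ∧ x ^ (p ^ j) ∈ U} =
      p ^ u * Nat.card {y : H ⧸ U.subgroupOf H // y ^ (p ^ j) = 1} := by
    have h5 := QuotientGroup.card_preimage_mk (U.subgroupOf H)
      {y : H ⧸ U.subgroupOf H | y ^ (p ^ j) = 1}
    rw [Nat.card_congr (subgroupOfEquivOfLe hUH).toEquiv, hUc] at h5
    refine Eq.trans ?_ h5
    refine Nat.card_congr ⟨fun x => ⟨⟨x.1, x.2.1⟩, ?_⟩, fun x => ⟨x.1.1, x.1.2, ?_⟩,
      fun x => rfl, fun x => rfl⟩
    · change (QuotientGroup.mk (⟨x.1, x.2.1⟩ : H) : H ⧸ U.subgroupOf H) ^ (p ^ j) = 1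
      have : (QuotientGroup.mk (⟨x.1, x.2.1⟩ : H) : H ⧸ U.subgroupOf H) ^ (p ^ j) =
        QuotientGroup.mk ((⟨x.1, x.2.1⟩ : H) ^ (p ^ j)) := rfl
      rw [this, QuotientGroup.eq_one_iff]
      exact x.2.2
    · have h6 : (QuotientGroup.mk (x.1) : H ⧸ U.subgroupOf H) ^ (p ^ j) = 1 := x.2
      have : (QuotientGroup.mk (x.1) : H ⧸ U.subgroupOf H) ^ (p ^ j) =
        QuotientGroup.mk (x.1 ^ (p ^ j)) := rfl
      rw [this, QuotientGroup.eq_one_iff] at h6
      exact h6
  rw [h4]
  have h5 : min (u + j) ((Nat.card H).factorization p) =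
      u + min j ((Nat.card (H ⧸ U.subgroupOf H)).factorization p) := by
    rw [h3]; omega
  rw [h5, pow_add]
  exact mul_dvd_mul_left _ h1

lemma smul_eq_of_HC {H : Subgroup G} (g : HC H) : g • H = H :=
  smul_eq_of_mem (H := H) (g := g.1) (le_normalizer g.2)

lemma orbit_eq_one {H U : Subgroup G} (h : H ≤ normalizer U) :
    Nat.card (MulAction.orbit (HC H) U) = 1 := by
  have h1 := card_orbit H U
  rw [inf_eq_left.mpr h] at h1
  exact Nat.eq_of_mul_eq_mul_right Nat.card_pos (h1.trans (one_mul _).symm)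

/-- The basic divisibility. -/
theorem claimB {p : ℕ} (hp : p.Prime) (k : ℕ) : ∀ (n : ℕ) (H U : Subgroup G),
    Nat.card H + (Nat.card G - Nat.card U) = n → U ∈ pk p k H →
    ((p : ℤ) ^ (min k ((Nat.card H).factorization p))) ∣
      (Nat.card (MulAction.orbit (HC H) U) : ℤ) * ((Nat.card U : ℤ) * mob p k H U) := by
  classical
  intro n
  induction n using Nat.strong_induction_on with
  | _ n ih =>
  intro H U hn hU
  have hUH : U ≤ H := (mem_pk.mp hU).1
  obtain ⟨u, hu, hUc⟩ := (Nat.dvd_prime_pow hp).mp (mem_pk.mp hU).2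
  by_cases hnorm : H ≤ normalizer U
  · -- the normal case
    obtain ⟨j, rfl⟩ := Nat.exists_eq_add_of_le hu
    set E := min (u + j) ((Nat.card H).factorization p) with hE
    rw [orbit_eq_one hnorm, Nat.cast_one, one_mul]
    have h1 := sum_mob_card hp (j := j) hUH hUc hnorm
    have h2 := dvd_count hp (j := j) hUH hUc hnorm
    rw [← hE] at h2
    have h3 : ((p : ℤ) ^ E) ∣ ∑ V ∈ (pk p (u + j) H).filter (U ≤ ·),
        mob p (u + j) H V * (Nat.card V : ℤ) := by
      rw [h1]; exact_mod_cast h2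
    have h4 : (pk p (u + j) H).filter (fun V => U ≤ V) =
        insert U ((pk p (u + j) H).filter (fun V => U < V)) := by
      ext V
      simp only [mem_filter, mem_insert]
      constructor
      · rintro ⟨h1, h2⟩
        rcases h2.eq_or_lt with h | h
        · exact Or.inl h.symm
        · exact Or.inr ⟨h1, h⟩
      · rintro (rfl | ⟨h1, h2⟩)
        · exact ⟨hU, le_rfl⟩
        · exact ⟨h1, h2.le⟩
    rw [h4, Finset.sum_insert (by simp)] at h3
    have h5 : ((p : ℤ) ^ E) ∣ ∑ V ∈ (pk p (u + j) H).filter (U < ·),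
        mob p (u + j) H V * (Nat.card V : ℤ) := by
      apply dvd_sum_of_orbits (Γ := HC H)
      · intro g V hV
        rw [mem_filter] at hV ⊢
        have hgU : g • U = U := smul_eq_of_mem (g := g.1) (hnorm g.2)
        constructor
        · have := (mem_pk_smul (p := p) (k := u + j) (H := H) (V := V) g.1).mpr hV.1
          have hgH : g.1 • H = H := smul_eq_of_HC g
          rw [hgH] at this
          exact this
        · rw [← hgU]
          exact lt_of_le_of_ne (Subgroup.pointwise_smul_le_pointwise_smul_iff.mpr hV.2.le)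
            (fun h => hV.2.ne (MulAction.injective g h))
      · intro g V hV
        rw [mem_filter] at hV
        have hgH : g.1 • H = H := smul_eq_of_HC g
        have h6 := mob_smul (p := p) (k := u + j) (H := H) (V := V) g.1 hV.1
        rw [hgH] at h6
        have h7 : Nat.card (g • V : Subgroup G) = Nat.card V := card_smul g.1 V
        rw [h7]
        have h8 : mob p (u + j) H (g • V) = mob p (u + j) H V := h6
        rw [h8]
      · intro V hV
        rw [mem_filter] at hV
        have hlt : Nat.card U < Nat.card V := by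
          have h6 := Set.ncard_lt_ncard (SetLike.coe_ssubset_coe.mpr hV.2) (Set.toFinite _)
          exact h6
        have hle : Nat.card V ≤ Nat.card G := Subgroup.card_le_card_group V
        have := ih _ (by omega) H V rfl hV.1
        rw [mul_comm (mob p (u + j) H V)]
        exact this
    rw [mul_comm (Nat.card U : ℤ)]
    exact (dvd_add_left h5).mp h3
  · -- the general case
    set N := H ⊓ normalizer U with hN
    have hNH : N < H := lt_of_le_of_ne inf_le_left (fun h => hnorm (inf_eq_left.mp h))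
    have hlt : Nat.card N < Nat.card H :=
      Set.ncard_lt_ncard (SetLike.coe_ssubset_coe.mpr hNH) (Set.toFinite _)
    have hUN : U ∈ pk p k N := by
      rw [mem_pk] at hU ⊢
      exact ⟨le_inf hU.1 le_normalizer, hU.2⟩
    have h1 := ih _ (by omega) N U rfl hUN
    rw [orbit_eq_one (inf_le_right : N ≤ normalizer U), Nat.cast_one, one_mul] at h1
    rw [mob_eq_normalizer hp hU, ← hN]
    have h2 := card_orbit H U
    rw [← hN] at h2
    set o := Nat.card (MulAction.orbit (HC H) U) with ho
    have hNpos : Nat.card N ≠ 0 := Nat.card_pos.ne'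
    have hopos : o ≠ 0 := by
      intro h
      rw [h, zero_mul] at h2
      exact (Nat.card_pos (α := H)).ne' h2.symm
    have h3 : (Nat.card H).factorization p = o.factorization p +
        (Nat.card N).factorization p := by
      rw [← h2, Nat.factorization_mul hopos hNpos]; rfl
    have h4 : ((p : ℤ) ^ (o.factorization p)) ∣ (o : ℤ) := by
      exact_mod_cast Nat.ordProj_dvd o p
    refine dvd_trans ?_ (mul_dvd_mul h4 h1)
    rw [← pow_add]
    apply pow_dvd_pow
    rw [h3]
    omega

end Group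

end Pool.Agent.R879.PPoset
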